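import Mathlib

/-!
# 1324-avoiding permutations (MP_571575_co), project `av`: definitions
-/

namespace Pool.Agent.AV

open Finset Function

/-- `π` avoids the pattern 1324. -/
def Av {n : ℕ} (π : Equiv.Perm (Fin n)) : Prop :=
  ∀ a b c d : Fin n, a < b → b < c → c < d → π a < π c → π c < π b → π b < π d → False

/-- `π` is a block: it is nonempty and skew-indecomposable, that is, no nonempty proper set `K` of
columns lies to the left of its complement and carries larger values than its complement. -/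
def Blk {n : ℕ} (π : Equiv.Perm (Fin n)) : Prop :=
  0 < n ∧ ∀ K : Set (Fin n), K.Nonempty → (∀ x ∈ K, ∀ y, y ∉ K → x < y ∧ π y < π x) → K = Set.univ

/-- The number of permutations of length `n` that avoid 1324. -/
noncomputable def s (n : ℕ) : ℕ := Nat.card {π : Equiv.Perm (Fin n) // Av π}

/-- The number of blocks of length `n` that avoid 1324. -/
noncomputable def g (n : ℕ) : ℕ := Nat.card {π : Equiv.Perm (Fin n) // Av π ∧ Blk π}

/-- The columns reached at stage `j`: at stage 0 only the first column, and at stage `j + 1` all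
columns weakly to the left of a point whose value is at least the value of a point of stage `j`. -/
def Cs {n : ℕ} (b : Equiv.Perm (Fin n)) : ℕ → Set (Fin n)
  | 0 => {x | (x : ℕ) = 0}
  | j + 1 => {x | ∃ y, (∃ z ∈ Cs b j, b z ≤ b y) ∧ x ≤ y}

/-- The points whose value is at least the value of a point of `Cs b j`. -/
def Vs {n : ℕ} (b : Equiv.Perm (Fin n)) (j : ℕ) : Set (Fin n) := {y | ∃ z ∈ Cs b j, b z ≤ b y}

/-- The column label of `x`: the first stage `j` with `x ∈ Cs b j`. -/
noncomputable def Q {n : ℕ} (b : Equiv.Perm (Fin n)) (x : Fin n) : ℕ := sInf {j | x ∈ Cs b j}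

/-- The row label of `x`: the first stage `j` with `x ∈ Vs b j`. -/
noncomputable def R {n : ℕ} (b : Equiv.Perm (Fin n)) (x : Fin n) : ℕ := sInf {j | x ∈ Vs b j}

/-- `π` is the parallel composition of the blocks `b₁` and `b₂`; the bijection `e` tells which
columns of `π` belong to `b₁` and to `b₂`. -/
structure Glued {k l N : ℕ} (b₁ : Equiv.Perm (Fin k)) (b₂ : Equiv.Perm (Fin l))
    (π : Equiv.Perm (Fin N)) (e : Fin k ⊕ Fin l ≃ Fin N) : Prop where
  c11 : ∀ x y : Fin k, e (Sum.inl x) < e (Sum.inl y) ↔ x < y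
  c22 : ∀ x y : Fin l, e (Sum.inr x) < e (Sum.inr y) ↔ x < y
  c12 : ∀ (x : Fin k) (y : Fin l), e (Sum.inl x) < e (Sum.inr y) ↔ Q b₁ x ≤ Q b₂ y
  r11 : ∀ x y : Fin k, π (e (Sum.inl x)) < π (e (Sum.inl y)) ↔ b₁ x < b₁ y
  r22 : ∀ x y : Fin l, π (e (Sum.inr x)) < π (e (Sum.inr y)) ↔ b₂ x < b₂ y
  r21 : ∀ (x : Fin k) (y : Fin l), π (e (Sum.inr y)) < π (e (Sum.inl x)) ↔ R b₁ x ≤ R b₂ y

end Pool.Agent.AV
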