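import Mathlib
import Pool.Agent.helper55.AV.Defs

/-!
# 1324-avoiding permutations (MP_571575_co), project `av`: modules

Theorem: if `s n` is the number of 1324-avoiders of length `n` and `g n` the number of the
skew-indecomposable ones (blocks), then `g N ≥ ∑ g k * g (N - k)` for `N ≥ 2`.  With
`γ = lim (s n)^(1/n)` it follows that `∑ s n / γ^n ≤ γ`, so `s n = o(γ^n)`, and that the sequence
`s` satisfies no linear recurrence with constant coefficients: the generating function is not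
rational (the case that the theorem of Bona, 2020, on nonrationality leaves out).

Every module `XX` is a theorem `XX : XX_stmt` in `Pool/Agent/<seat>/AV/XX.lean`,
`import Pool.Agent.helper55.AV.Spec`, `namespace Pool.Agent.AV`, with the other statements used as
hypotheses (`theorem XX (h : YY_stmt) : XX_stmt`) where the sketch says so.  Auxiliary lemmas must be
prefixed by the name of the module (`LB_aux ...`).
-/

namespace Pool.Agent.AV

open Finset Function Filter Topology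

/-- `LB`: labels of a block.  Sketch: `Cs b j ⊆ Vs b j` (take `z = y`) and `Vs b j ⊆ Cs b (j+1)`
(take `x = y`); each `Cs b j` is closed under going left (for `j = 0` trivial) and each `Vs b j` is
closed under going up in value.  Every `x` is in some `Cs b j`: the union `U` of all `Cs b j` (= the
union of all `Vs b j`) contains the first column; for `x ∈ U` and `y ∉ U` we have `x < y`
(if `y ≤ x ∈ Vs b j` then `y ∈ Cs b (j+1)`) and `b y < b x` (if `b x ≤ b y`, `x ∈ Cs b j`, then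
`y ∈ Vs b j`), so `U = univ` since `b` is a block.  Then `x ∈ Cs b j ↔ Q b x ≤ j` by monotonicity
and `Nat.sInf_mem`, similarly for `R`; the rest follows. -/
def LB_stmt : Prop := ∀ (n : ℕ) (b : Equiv.Perm (Fin n)), Blk b →
  (∀ x j, x ∈ Cs b j ↔ Q b x ≤ j) ∧ (∀ x j, x ∈ Vs b j ↔ R b x ≤ j) ∧
  (∀ x, R b x ≤ Q b x ∧ Q b x ≤ R b x + 1) ∧ (∀ x, Q b x = 0 ↔ (x : ℕ) = 0) ∧
  (∀ x y, x ≤ y → Q b x ≤ Q b y) ∧ (∀ x y, b x ≤ b y → R b y ≤ R b x)

/-- `LC` (uses `LB`): for `j` such that some `Q b x = j + 1`, let `z` be the last column of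
`Cs b (j+1)`.  By definition of `Cs b (j+1)` we have `z ∈ Vs b j`, so `R b z ≤ j`; as
`Q b z ≥ Q b x = j + 1` and `Q b z ≤ R b z + 1`, `Q b z = j + 1` and `R b z = j`.  If `Q b x = R b x
= j + 1` then `x ≤ z`, `x ≠ z` and `b x < b z` (otherwise `R b x ≤ R b z`).
For `j` such that some `R b x = j`, let `w` be the element of `Vs b j` of least value; it lies in
`Cs b j`; so `Q b w ≤ j`, `R b w = j = Q b w`; if `Q b x = j + 1` and `R b x = j` then `b w < b x`
and `w < x` (otherwise `Q b x ≤ Q b w = j`). -/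
def LC_stmt : Prop := ∀ (n : ℕ) (b : Equiv.Perm (Fin n)), Blk b →
  (∀ j, (∃ x, Q b x = j + 1) → ∃ z, Q b z = j + 1 ∧ R b z = j ∧
    ∀ x, Q b x = j + 1 → R b x = j + 1 → x < z ∧ b x < b z) ∧
  (∀ j, (∃ x, R b x = j) → ∃ w, Q b w = j ∧ R b w = j ∧
    ∀ x, Q b x = j + 1 → R b x = j → w < x ∧ b w < b x)

/-- `GE` (uses `LB`): existence of the parallel composition.  Sketch: order the columns by
`(Q, side, own column)` lexicographically, and the rows from top to bottom by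
`(R, side, own value downwards)`.  On one side these orders are the original ones by monotonicity
(`LB`).  One may use ℕ-valued keys `(2 * Q + side) * M + column` with `M = k + l + 1` and the
construction `rk`, `std` of `Pool/Agent/helper48/PP/Std.lean` (which may be imported), the row keys
being `B - ((2 * R + side) * M + (M - 1 - value))` for a large `B`. -/
def GE_stmt : Prop := ∀ (k l N : ℕ) (b₁ : Equiv.Perm (Fin k)) (b₂ : Equiv.Perm (Fin l)),
  Blk b₁ → Blk b₂ → k + l = N → ∃ (π : Equiv.Perm (Fin N)) (e : Fin k ⊕ Fin l ≃ Fin N),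
    Glued b₁ b₂ π e

/-- `GA` (uses `LB`, `LC`): the parallel composition avoids 1324. -/
def GA_stmt : Prop := ∀ (k l N : ℕ) (b₁ : Equiv.Perm (Fin k)) (b₂ : Equiv.Perm (Fin l))
  (π : Equiv.Perm (Fin N)) (e : Fin k ⊕ Fin l ≃ Fin N), Blk b₁ → Blk b₂ → Av b₁ → Av b₂ →
  Glued b₁ b₂ π e → Av π

/-- `GB` (uses `LB`): the parallel composition is a block, its first column is the first column of
`b₁` and its second column is the first column of `b₂` (if `k ≥ 2` or not), and the second entry is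
smaller than the first one. Sketch: `Q b₁ x = 0` only for the first column; so `e (inl 0) = 0` and
`e (inr 0) = 1`, and `R = 0` at both. Block: let `K` be nonempty with the property that
`x < y` and `π y < π x` for `x ∈ K`, `y ∉ K`. Then `0 ∈ K`. The preimage of `K` under `e ∘ inl` is
nonempty, so it is everything. The preimage under `e ∘ inr` is empty or everything. If it is empty,
take the second column `x` of `b₁` (`Q b₁ x ≥ 1`) and `y = 0` of `b₂`: `e (inl x) < e (inr y)` would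
imply `Q b₁ x ≤ 0`. -/
def GB_stmt : Prop := ∀ (k l N : ℕ) (b₁ : Equiv.Perm (Fin k)) (b₂ : Equiv.Perm (Fin l))
  (π : Equiv.Perm (Fin N)) (e : Fin k ⊕ Fin l ≃ Fin N), 2 ≤ k → Blk b₁ → Blk b₂ →
  Glued b₁ b₂ π e → Blk π ∧ ∀ x y : Fin N, (x : ℕ) = 0 → (y : ℕ) = 1 →
    (∃ x' : Fin k, (x' : ℕ) = 0 ∧ e (Sum.inl x') = x) ∧
    (∃ y' : Fin l, (y' : ℕ) = 0 ∧ e (Sum.inr y') = y) ∧
    π y < π x

/-- `UQ` (uses `LB`): uniqueness of the set of the columns of `b₁`.  Sketch: let `C₁ j`, `V₁ j`,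
`C₂ j`, `V₂ j` be the images in `Fin N` of `Cs b₁ j`, `Vs b₁ j`, `Cs b₂ j`, `Vs b₂ j`.  Then
`C₁ 0 = {0}`, `C₂ 0 = {1}` (as in `GB`; here `k ≥ 1` is enough),
`V₁ j = {x ∉ V₂ (j-1) : ∃ y ∈ C₁ j, π y ≤ π x}` (with `V₂ (-1) = ∅`),
`V₂ j = {x ∉ V₁ j : ∃ y ∈ C₂ j, π y ≤ π x}`,
`C₁ (j+1) = {x ∉ C₂ j : ∃ y ∈ V₁ j, x ≤ y}`, `C₂ (j+1) = {x ∉ C₁ (j+1) : ∃ y ∈ V₂ j, x ≤ y}`.
(For example, in the second line, if `x` is on side 2, `y ∈ C₁ j` and `π y ≤ π x` then
`R x < R y ≤ j` by `r21`, so `x ∈ V₂ (j-1)`.)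
So all these sets are determined by `π`, by induction on `j`, and the set of the columns of `b₁` is
the union of the `C₁ j`. -/
def UQ_stmt : Prop := ∀ (k l k' l' N : ℕ) (b₁ : Equiv.Perm (Fin k)) (b₂ : Equiv.Perm (Fin l))
  (b₁' : Equiv.Perm (Fin k')) (b₂' : Equiv.Perm (Fin l')) (π : Equiv.Perm (Fin N))
  (e : Fin k ⊕ Fin l ≃ Fin N) (e' : Fin k' ⊕ Fin l' ≃ Fin N), Blk b₁ → Blk b₂ → Blk b₁' → Blk b₂' →
  Glued b₁ b₂ π e → Glued b₁' b₂' π e' →
  Set.range (fun x => e (Sum.inl x)) = Set.range (fun x => e' (Sum.inl x))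

/-- `PT`: if the sets of the columns agree then the blocks agree.  Sketch: the length is the number
of elements; two strictly increasing maps with the same range agree; a permutation is determined by
the relation `b x < b y` (`rk_unique` in `Pool/Agent/helper48/PP/Std.lean`); the complement is the
range of `e ∘ inr`. -/
def PT_stmt : Prop := ∀ (k l k' l' N : ℕ) (b₁ : Equiv.Perm (Fin k)) (b₂ : Equiv.Perm (Fin l))
  (b₁' : Equiv.Perm (Fin k')) (b₂' : Equiv.Perm (Fin l')) (π : Equiv.Perm (Fin N))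
  (e : Fin k ⊕ Fin l ≃ Fin N) (e' : Fin k' ⊕ Fin l' ≃ Fin N),
  Glued b₁ b₂ π e → Glued b₁' b₂' π e' →
  Set.range (fun x => e (Sum.inl x)) = Set.range (fun x => e' (Sum.inl x)) →
  k = k' ∧ l = l' ∧ HEq b₁ b₁' ∧ HEq b₂ b₂'

/-- `CT` (uses `GE`, `GA`, `GB`, `UQ`, `PT`): counting.  Sketch: map
`(k, b₁, b₂)` (a sigma type over `k ∈ Ico 2 N`) to some `π` with `Glued b₁ b₂ π e`, injective by
`UQ` and `PT`; or: `∑ = ` card of the sigma type. -/
def CT_stmt : Prop := ∀ N : ℕ, ∑ k ∈ Ico 2 N, g k * g (N - k) ≤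
  Nat.card {π : Equiv.Perm (Fin N) // (Av π ∧ Blk π) ∧
    ∀ x y : Fin N, (x : ℕ) = 0 → (y : ℕ) = 1 → π y < π x}

/-- `TI`: insertion of a new maximum in the second column.  For a block `b` of length `n ≥ 1` that
avoids 1324 let `π` be the permutation of length `n + 1` with entries `b 0, n, b 1, ..., b (n-1)`.
It avoids 1324 (the new maximum could only be the last entry of a copy) and it is a block:
if `K` is as in `Blk`, then `0 ∈ K`, then `1 ∈ K` since `π 0 < π 1`, and then all other columns since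
`b` is a block.  The map is injective. -/
def TI_stmt : Prop := ∀ n : ℕ, 1 ≤ n → g n ≤
  Nat.card {π : Equiv.Perm (Fin (n + 1)) // (Av π ∧ Blk π) ∧
    ∀ x y : Fin (n + 1), (x : ℕ) = 0 → (y : ℕ) = 1 → π x < π y}

/-- `G1`: there is one block of length 1 and none of length 0. -/
def G1_stmt : Prop := g 0 = 0 ∧ g 1 = 1 ∧ s 0 = 1 ∧ ∀ n, g n ≤ s n

/-- `TC` (uses `CT`, `TI`, `G1`): the main inequality.  The two sets counted in `CT` and `TI` are
disjoint subsets of the set counted by `g N`. -/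
def TC_stmt : Prop := ∀ N : ℕ, 2 ≤ N → ∑ k ∈ Ico 1 N, g k * g (N - k) ≤ g N

/-- `TB`: decomposition into blocks.  Sketch: for a permutation `π` of length `n ≥ 1` let `k ≥ 1` be
least such that the first `k` columns carry larger values than the other columns.  Then the values
in the first `k` columns are `n - k, ..., n - 1`; subtracting `n - k` we get a block `b` of length
`k` (by minimality; note that a set `K` as in `Blk` is an initial set of columns) and the other
columns give a permutation `τ` of length `n - k`; both avoid 1324.  The map `π ↦ (k, b, τ)` is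
injective. The skew sum `ssum` of `Pool/Agent/helper48/PP/Count.lean` may be used:
every `π` whose first `k` columns carry the larger values is `ssum b τ` up to a cast. -/
def TB_stmt : Prop := ∀ n : ℕ, 1 ≤ n → s n ≤ ∑ k ∈ Ico 1 (n + 1), g k * s (n - k)

/-- `SE`: the counting in the notation of the frozen statement, and in the notation of
`Pool/Agent/helper48/PP/Defs.lean`; so `s` is supermultiplicative and bounded by `c ^ n`
(`avCount_mul` in `Count.lean`, `stanley_wilf` in `MT.lean`; import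
`Pool.Agent.helper48.PP.Count` and `Pool.Agent.helper48.PP.MT`). -/
def SE_stmt : Prop :=
  (∀ n : ℕ, s n = Nat.card {σ : Equiv.Perm (Fin n) //
      ¬ ∃ f : Fin 4 → Fin n, StrictMono f ∧
        ∀ i j : Fin 4, (σ (f i) < σ (f j) ↔
          (![0, 2, 1, 3] : Fin 4 → ℕ) i < (![0, 2, 1, 3] : Fin 4 → ℕ) j)}) ∧
  (∀ m n : ℕ, s m * s n ≤ s (m + n)) ∧ (∃ c : ℕ, 1 ≤ c ∧ ∀ n, s n ≤ c ^ n) ∧ (∀ n, 1 ≤ s n) ∧
  s 2 = 2

/-- `GR`: growth rate of a supermultiplicative sequence.  Sketch: Fekete's lemma for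
`u n = - log (a n)` (Mathlib: `Subadditive.tendsto_lim`), and `a n ≤ γ ^ n` from
`a n ^ k ≤ a (n * k)`. -/
def GR_stmt : Prop := ∀ (a : ℕ → ℕ) (c : ℕ), (∀ m n, a m * a n ≤ a (m + n)) → 1 ≤ c →
  (∀ n, a n ≤ c ^ n) → (∀ n, 1 ≤ a n) → ∃ γ : ℝ, 1 ≤ γ ∧
  Tendsto (fun n : ℕ => (a n : ℝ) ^ ((1 : ℝ) / n)) atTop (𝓝 γ) ∧ ∀ n, (a n : ℝ) ≤ γ ^ n

/-- `AN`: the analytic step.  Sketch: for `0 < x < 1/γ` the series `G = ∑ g n x^n` and
`F = ∑ s n x^n` converge (compare with a geometric series), `G ≥ x + G²` (Cauchy product, using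
`g 1 ≥ 1`), so `0 < G < 1` and `1 - G ≥ x / G ≥ x`; `F ≤ 1 + G * F`, so `F ≤ 1 / (1 - G) ≤ 1 / x`.
So each partial sum of `∑ s n x^n` is at most `1/x`; let `x` tend to `1/γ`. -/
def AN_stmt : Prop := ∀ (s g : ℕ → ℕ) (γ : ℝ), 1 ≤ γ → (∀ n, (s n : ℝ) ≤ γ ^ n) →
  g 0 = 0 → g 1 = 1 → s 0 = 1 → (∀ n, g n ≤ s n) →
  (∀ N : ℕ, 2 ≤ N → ∑ k ∈ Ico 1 N, g k * g (N - k) ≤ g N) →
  (∀ n : ℕ, 1 ≤ n → s n ≤ ∑ k ∈ Ico 1 (n + 1), g k * s (n - k)) →
  Summable (fun n => (s n : ℝ) / γ ^ n) ∧ ∑' n, (s n : ℝ) / γ ^ n ≤ γ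

/-- `CF`: a sequence that tends to 0 and satisfies, from some point on, a linear recurrence with
constant coefficients decays exponentially.  Sketch: let `D` be the largest `i` with `c i ≠ 0`;
if `D = 0` then `u n = 0` for large `n`.  Otherwise the window vectors
`U n = (u n, ..., u (n + D - 1))` satisfy `U (n + 1) = A (U n)` for `n ≥ n₀` with a fixed linear map
`A`.  Choose `n₁, ..., n_r ≥ n₀` such that the `U (n_i)` are a basis of the span of
`{U n : n ≥ n₀}`; there is a constant `K` such that `U n = ∑ a_i U (n_i)` with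
`|a_i| ≤ K * ‖U n‖` for every `n ≥ n₀` (finite dimension); so
`U (n + m) = ∑ a_i U (n_i + m)` and `‖U (n + m)‖ ≤ K ‖U n‖ ∑ ‖U (n_i + m)‖ ≤ ‖U n‖ / 2` for some
fixed `m ≥ 1`, as `U` tends to 0.  So `‖U (n₀ + q m + t)‖ ≤ 2^(-q) ‖U (n₀ + t)‖`. -/
def CF_stmt : Prop := ∀ (u : ℕ → ℂ) (d n₀ : ℕ) (c : Fin (d + 1) → ℂ), c ≠ 0 →
  (∀ n, n₀ ≤ n → ∑ i : Fin (d + 1), c i * u (n + (i : ℕ)) = 0) → Tendsto u atTop (𝓝 0) →
  ∃ C θ : ℝ, 0 < θ ∧ θ < 1 ∧ ∀ n, ‖u n‖ ≤ C * θ ^ n

/-- `NR` (uses `CF`): a sequence of nonnegative integers with growth rate `γ` such that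
`s n / γ^n → 0` satisfies no linear recurrence with constant coefficients.  Sketch: `u n = s n / γ^n`
satisfies the recurrence with coefficients `c i * γ^i`; by `CF`, `s n ≤ C (θ γ)^n`, so
`(s n)^(1/n) ≤ C^(1/n) θ γ`, and the limit is at most `θ γ < γ`. -/
def NR_stmt : Prop := ∀ (s : ℕ → ℕ) (γ : ℝ), 1 ≤ γ →
  Tendsto (fun n : ℕ => (s n : ℝ) ^ ((1 : ℝ) / n)) atTop (𝓝 γ) →
  Tendsto (fun n : ℕ => (s n : ℝ) / γ ^ n) atTop (𝓝 0) →
  ¬ ∃ (d n₀ : ℕ) (c : Fin (d + 1) → ℂ), c ≠ 0 ∧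
    ∀ n, n₀ ≤ n → ∑ i : Fin (d + 1), c i * (s (n + (i : ℕ)) : ℂ) = 0

end Pool.Agent.AV
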