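import Mathlib
import Pool.Agent.helper55.AV.Spec

/-!
Module `AN`: the analytic step.
-/

namespace Pool.Agent.AV

open Filter Topology Finset

theorem AN_conv (f h : ℕ → ℕ) (x : ℝ) (hx : 0 ≤ x) (hf : Summable fun n => (f n : ℝ) * x ^ n)
    (hh : Summable fun n => (h n : ℝ) * x ^ n) :
    (Summable fun n => ((∑ k ∈ range (n + 1), f k * h (n - k) : ℕ) : ℝ) * x ^ n) ∧
    (∑' n, (f n : ℝ) * x ^ n) * (∑' n, (h n : ℝ) * x ^ n) =
      ∑' n, ((∑ k ∈ range (n + 1), f k * h (n - k) : ℕ) : ℝ) * x ^ n := by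
  have hf' : Summable fun n => ‖(f n : ℝ) * x ^ n‖ := hf.norm
  have hh' : Summable fun n => ‖(h n : ℝ) * x ^ n‖ := hh.norm
  have key : ∀ n, ∑ k ∈ range (n + 1), ((f k : ℝ) * x ^ k) * ((h (n - k) : ℝ) * x ^ (n - k)) =
      ((∑ k ∈ range (n + 1), f k * h (n - k) : ℕ) : ℝ) * x ^ n := by
    intro n
    push_cast
    rw [Finset.sum_mul]
    refine Finset.sum_congr rfl fun k hk => ?_
    rw [mem_range] at hk
    have : x ^ n = x ^ k * x ^ (n - k) := by rw [← pow_add]; congr 1; omega
    rw [this]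
    ring
  constructor
  · have h1 := summable_norm_sum_mul_range_of_summable_norm hf' hh'
    have h2 := h1.of_norm
    simp only [key] at h2
    exact h2
  · rw [tsum_mul_tsum_eq_tsum_sum_range_of_summable_norm hf' hh']
    exact tsum_congr key

theorem AN : AN_stmt := by
  intro s g γ hγ hs hg0 hg1 hs0 hgs hTC hTB
  have hγ0 : 0 < γ := lt_of_lt_of_le one_pos hγ
  -- the bound for `x` below the radius
  have main : ∀ x : ℝ, 0 < x → x < 1 / γ → ∀ N, (∑ n ∈ range N, (s n : ℝ) * x ^ n) * x ≤ 1 := by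
    intro x hx hxγ N
    have hγx : γ * x < 1 := by
      rw [lt_div_iff₀ hγ0] at hxγ
      linarith
    have hgeo : Summable fun n : ℕ => (γ * x) ^ n :=
      summable_geometric_of_lt_one (by positivity) hγx
    have hS : Summable fun n => (s n : ℝ) * x ^ n := by
      refine Summable.of_nonneg_of_le (fun n => by positivity) (fun n => ?_) hgeo
      rw [mul_pow]
      exact mul_le_mul_of_nonneg_right (hs n) (by positivity)
    have hG : Summable fun n => (g n : ℝ) * x ^ n := by
      refine Summable.of_nonneg_of_le (fun n => by positivity) (fun n => ?_) hS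
      have : (g n : ℝ) ≤ s n := by exact_mod_cast hgs n
      exact mul_le_mul_of_nonneg_right this (by positivity)
    obtain ⟨c1, c2⟩ := AN_conv g g x hx.le hG hG
    obtain ⟨d1, d2⟩ := AN_conv g s x hx.le hG hS
    set G := ∑' n, (g n : ℝ) * x ^ n with hGdef
    set F := ∑' n, (s n : ℝ) * x ^ n with hFdef
    have hδ : ∀ m : ℕ, Summable fun n : ℕ => (if n = m then x ^ m else 0 : ℝ) := fun m =>
      (hasSum_ite_eq m (x ^ m)).summable
    have hδs : ∀ m : ℕ, ∑' n : ℕ, (if n = m then x ^ m else 0 : ℝ) = x ^ m := fun m =>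
      (hasSum_ite_eq m (x ^ m)).tsum_eq
    -- `G ≥ x + G²`
    have h1 : x + G * G ≤ G := by
      rw [c2]
      have h2 : x + ∑' n, ((∑ k ∈ range (n + 1), g k * g (n - k) : ℕ) : ℝ) * x ^ n =
          ∑' n, ((if n = 1 then x ^ 1 else 0 : ℝ) +
            ((∑ k ∈ range (n + 1), g k * g (n - k) : ℕ) : ℝ) * x ^ n) := by
        rw [(hδ 1).tsum_add c1, hδs 1, pow_one]
      rw [h2, hGdef]
      refine ((hδ 1).add c1).tsum_le_tsum (fun n => ?_) hG
      rcases lt_trichotomy n 1 with hn | hn | hn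
      · have : n = 0 := by omega
        subst this
        simp [hg0]
      · subst hn
        simp [hg0, hg1, Finset.sum_range_succ]
      · have h3 : ∑ k ∈ range (n + 1), g k * g (n - k) ≤ g n := by
          rw [Finset.sum_range_succ, Nat.sub_self, hg0, mul_zero, add_zero]
          rw [Finset.range_eq_Ico, Finset.sum_eq_sum_Ico_succ_bot (by omega), hg0, zero_mul,
            zero_add]
          exact hTC n (by omega)
        have h4 : ((∑ k ∈ range (n + 1), g k * g (n - k) : ℕ) : ℝ) ≤ g n := by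
          exact_mod_cast h3
        rw [if_neg (by omega), zero_add]
        exact mul_le_mul_of_nonneg_right h4 (by positivity)
    -- `F ≤ 1 + G * F`
    have h5 : F ≤ 1 + G * F := by
      rw [d2]
      have h2 : 1 + ∑' n, ((∑ k ∈ range (n + 1), g k * s (n - k) : ℕ) : ℝ) * x ^ n =
          ∑' n, ((if n = 0 then x ^ 0 else 0 : ℝ) +
            ((∑ k ∈ range (n + 1), g k * s (n - k) : ℕ) : ℝ) * x ^ n) := by
        rw [(hδ 0).tsum_add d1, hδs 0, pow_zero]
      rw [h2, hFdef]
      refine hS.tsum_le_tsum (fun n => ?_) ((hδ 0).add d1)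
      rcases Nat.eq_zero_or_pos n with hn | hn
      · subst hn
        simp [hg0, hs0]
      · have h3 : s n ≤ ∑ k ∈ range (n + 1), g k * s (n - k) := by
          rw [Finset.range_eq_Ico, Finset.sum_eq_sum_Ico_succ_bot (by omega), hg0, zero_mul,
            zero_add]
          exact hTB n hn
        have h4 : (s n : ℝ) ≤ ((∑ k ∈ range (n + 1), g k * s (n - k) : ℕ) : ℝ) := by
          exact_mod_cast h3
        rw [if_neg (by omega), zero_add]
        exact mul_le_mul_of_nonneg_right h4 (by positivity)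
    have hF0 : 0 ≤ F := tsum_nonneg fun n => by positivity
    have hG0 : 0 < G := by nlinarith
    have hG1 : G < 1 := by nlinarith
    have hxG : x ≤ 1 - G := by nlinarith
    have hpart : ∑ n ∈ range N, (s n : ℝ) * x ^ n ≤ F :=
      hS.sum_le_tsum _ fun n _ => by positivity
    calc (∑ n ∈ range N, (s n : ℝ) * x ^ n) * x ≤ F * x := by gcongr
      _ ≤ F * (1 - G) := by gcongr
      _ ≤ 1 := by linarith
  -- the limit
  have hbound : ∀ N, ∑ n ∈ range N, (s n : ℝ) / γ ^ n ≤ γ := by
    intro N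
    have hcont : Continuous fun x : ℝ => (∑ n ∈ range N, (s n : ℝ) * x ^ n) * x := by
      fun_prop
    have h1 : (∑ n ∈ range N, (s n : ℝ) * (1 / γ) ^ n) * (1 / γ) ≤ 1 := by
      have hmem : (1 / γ) ∈ closure (Set.Ioo 0 (1 / γ)) := by
        rw [closure_Ioo (by positivity : (0 : ℝ) ≠ 1 / γ)]
        exact ⟨by positivity, le_rfl⟩
      have h2 : closure (Set.Ioo 0 (1 / γ)) ⊆
          {x : ℝ | (∑ n ∈ range N, (s n : ℝ) * x ^ n) * x ≤ 1} :=
        closure_minimal (fun x hx => main x hx.1 hx.2 N) (isClosed_le hcont continuous_const)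
      exact h2 hmem
    have h3 : ∑ n ∈ range N, (s n : ℝ) * (1 / γ) ^ n = ∑ n ∈ range N, (s n : ℝ) / γ ^ n :=
      Finset.sum_congr rfl fun n _ => by rw [one_div, inv_pow, div_eq_mul_inv]
    rw [h3, mul_one_div, div_le_one hγ0] at h1
    exact h1
  have hnn : ∀ n, 0 ≤ (s n : ℝ) / γ ^ n := fun n => by positivity
  exact ⟨summable_of_sum_range_le hnn hbound, Real.tsum_le_of_sum_range_le hnn hbound⟩

end Pool.Agent.AV
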