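import Mathlib
import Pool.Agent.helper55.AV.Spec

/-!
Module `CF`: a sequence that tends to 0 and satisfies a linear recurrence with constant
coefficients decays exponentially.
-/

namespace Pool.Agent.AV

open Filter Topology

theorem CF_dec (v : ℕ → ℝ) (n₀ m : ℕ) (hm : 1 ≤ m) (h : ∀ n, n₀ ≤ n → v (n + m) ≤ v n / 2) :
    ∃ C θ : ℝ, 0 < θ ∧ θ < 1 ∧ ∀ n, v n ≤ C * θ ^ n := by
  have hm' : (0 : ℝ) < m := by exact_mod_cast hm
  set θ : ℝ := (1 / 2 : ℝ) ^ ((1 : ℝ) / m) with hθ
  have hθ0 : 0 < θ := by rw [hθ]; positivity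
  have hθ1 : θ < 1 := by
    rw [hθ]
    exact Real.rpow_lt_one (by norm_num) (by norm_num) (by positivity)
  have hθm : θ ^ m = 1 / 2 := by
    rw [hθ, ← Real.rpow_natCast, ← Real.rpow_mul (by norm_num)]
    rw [one_div_mul_cancel hm'.ne', Real.rpow_one]
  obtain ⟨M, hM⟩ : ∃ M : ℝ, ∀ n, n < n₀ + m → v n ≤ M := by
    refine ⟨∑ i ∈ Finset.range (n₀ + m), |v i|, fun n hn => ?_⟩
    exact (le_abs_self _).trans (Finset.single_le_sum (f := fun i => |v i|)
      (fun i _ => abs_nonneg _) (Finset.mem_range.mpr hn))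
  refine ⟨|M| / θ ^ (n₀ + m), θ, hθ0, hθ1, fun n => ?_⟩
  induction n using Nat.strong_induction_on with
  | _ n ih =>
    rcases lt_or_ge n (n₀ + m) with hn | hn
    · have h1 : θ ^ (n₀ + m) ≤ θ ^ n := pow_le_pow_of_le_one hθ0.le hθ1.le hn.le
      have h2 : (0 : ℝ) < θ ^ (n₀ + m) := by positivity
      calc v n ≤ M := hM n hn
        _ ≤ |M| := le_abs_self _
        _ = |M| / θ ^ (n₀ + m) * θ ^ (n₀ + m) := by field_simp
        _ ≤ |M| / θ ^ (n₀ + m) * θ ^ n := by gcongr
    · have h1 := ih (n - m) (by omega)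
      have h2 := h (n - m) (by omega)
      rw [Nat.sub_add_cancel (by omega : m ≤ n)] at h2
      have h3 : θ ^ n = θ ^ (n - m) * (1 / 2) := by
        rw [← hθm, ← pow_add, Nat.sub_add_cancel (by omega : m ≤ n)]
      rw [h3]
      nlinarith

theorem CF_contr {D : ℕ} (A : (Fin D → ℂ) →ₗ[ℂ] (Fin D → ℂ)) (W : Submodule ℂ (Fin D → ℂ))
    (hW : ∀ w ∈ W, Tendsto (fun m : ℕ => (A ^ m) w) atTop (𝓝 0)) :
    ∃ m : ℕ, 1 ≤ m ∧ ∀ w ∈ W, ‖(A ^ m) w‖ ≤ ‖w‖ / 2 := by
  set b := Module.finBasis ℂ W with hb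
  have hbound : ∀ i, ∃ K : ℝ, 0 ≤ K ∧ ∀ w : W, ‖b.repr w i‖ ≤ K * ‖w‖ := by
    intro i
    have hc : Continuous (b.coord i) := LinearMap.continuous_of_finiteDimensional _
    let f : W →L[ℂ] ℂ := ⟨b.coord i, hc⟩
    exact ⟨‖f‖, norm_nonneg f, fun w => f.le_opNorm w⟩
  choose K hK0 hK using hbound
  have hlim : Tendsto (fun m : ℕ => ∑ i, K i * ‖(A ^ m) (b i : Fin D → ℂ)‖) atTop (𝓝 0) := by
    have h1 : ∀ i, Tendsto (fun m : ℕ => K i * ‖(A ^ m) (b i : Fin D → ℂ)‖) atTop (𝓝 0) := by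
      intro i
      have h2 := (hW (b i) (b i).2).norm
      rw [norm_zero] at h2
      have h3 := h2.const_mul (K i)
      rwa [mul_zero] at h3
    have := tendsto_finsetSum Finset.univ (fun i _ => h1 i)
    simpa using this
  have hev := hlim.eventually (gt_mem_nhds (show (0 : ℝ) < 1 / 2 by norm_num))
  obtain ⟨m, hm1, hm⟩ := (hev.and (eventually_ge_atTop 1)).exists
  refine ⟨m, hm, fun w hw => ?_⟩
  have h4 : (w : Fin D → ℂ) = ∑ i, b.repr ⟨w, hw⟩ i • (b i : Fin D → ℂ) := by
    have h5 := congrArg (fun x : W => (x : Fin D → ℂ)) (b.sum_repr ⟨w, hw⟩)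
    simp only [Submodule.coe_sum, Submodule.coe_smul] at h5
    exact h5.symm
  have h6 : (A ^ m) w = ∑ i, b.repr ⟨w, hw⟩ i • (A ^ m) (b i : Fin D → ℂ) := by
    conv_lhs => rw [h4]
    rw [map_sum]
    simp only [map_smul]
  rw [h6]
  calc ‖∑ i, b.repr ⟨w, hw⟩ i • (A ^ m) (b i : Fin D → ℂ)‖
      ≤ ∑ i, ‖b.repr ⟨w, hw⟩ i • (A ^ m) (b i : Fin D → ℂ)‖ := norm_sum_le _ _
    _ ≤ ∑ i, (K i * ‖(A ^ m) (b i : Fin D → ℂ)‖) * ‖w‖ := by
        refine Finset.sum_le_sum fun i _ => ?_
        rw [norm_smul]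
        have h7 := hK i ⟨w, hw⟩
        have h8 : ‖(⟨w, hw⟩ : W)‖ = ‖w‖ := rfl
        rw [h8] at h7
        calc _ ≤ (K i * ‖w‖) * ‖(A ^ m) (b i : Fin D → ℂ)‖ := by gcongr
          _ = _ := by ring
    _ = (∑ i, K i * ‖(A ^ m) (b i : Fin D → ℂ)‖) * ‖w‖ := by rw [Finset.sum_mul]
    _ ≤ (1 / 2) * ‖w‖ := by gcongr
    _ = ‖w‖ / 2 := by ring

/-- The version with leading coefficient. -/
theorem CF_lead (u : ℕ → ℂ) (D n₀ : ℕ) (hD : 1 ≤ D) (a : Fin D → ℂ)
    (hrec : ∀ n, n₀ ≤ n → u (n + D) = ∑ i : Fin D, a i * u (n + (i : ℕ)))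
    (hu : Tendsto u atTop (𝓝 0)) :
    ∃ C θ : ℝ, 0 < θ ∧ θ < 1 ∧ ∀ n, ‖u n‖ ≤ C * θ ^ n := by
  set U : ℕ → (Fin D → ℂ) := fun n i => u (n + i) with hU
  let A : (Fin D → ℂ) →ₗ[ℂ] (Fin D → ℂ) :=
    { toFun := fun v i => if h : (i : ℕ) + 1 < D then v ⟨i + 1, h⟩ else ∑ j, a j * v j
      map_add' := by
        intro v w
        ext i
        simp only [Pi.add_apply]
        split_ifs with h
        · rfl
        · rw [← Finset.sum_add_distrib]
          exact Finset.sum_congr rfl fun j _ => by ring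
      map_smul' := by
        intro r v
        ext i
        simp only [Pi.smul_apply, smul_eq_mul, RingHom.id_apply]
        split_ifs with h
        · rfl
        · rw [Finset.mul_sum]
          exact Finset.sum_congr rfl fun j _ => by ring }
  have hA : ∀ n, n₀ ≤ n → A (U n) = U (n + 1) := by
    intro n hn
    ext i
    change (if h : (i : ℕ) + 1 < D then U n ⟨i + 1, h⟩ else ∑ j, a j * U n j) = U (n + 1) i
    split_ifs with h
    · simp only [hU]
      congr 1
      omega
    · simp only [hU]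
      rw [← hrec n hn]
      congr 1
      have := i.2
      omega
  have hAm : ∀ m n, n₀ ≤ n → (A ^ m) (U n) = U (n + m) := by
    intro m
    induction m with
    | zero => intro n _; simp
    | succ m ih =>
      intro n hn
      rw [pow_succ, Module.End.mul_apply, hA n hn, ih (n + 1) (by omega)]
      congr 1
      omega
  have hUlim : Tendsto U atTop (𝓝 0) := by
    rw [tendsto_pi_nhds]
    intro i
    exact hu.comp (tendsto_add_atTop_nat (i : ℕ))
  obtain ⟨m, hm, hW⟩ := CF_contr A (Submodule.span ℂ (Set.range fun n => U (n₀ + n))) (by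
    intro w hw
    induction hw using Submodule.span_induction with
    | mem x hx =>
      obtain ⟨n, rfl⟩ := hx
      have h1 : ∀ m, (A ^ m) (U (n₀ + n)) = U (m + (n₀ + n)) := by
        intro m
        rw [hAm m _ (by omega)]
        congr 1
        omega
      simp only [h1]
      exact hUlim.comp (tendsto_add_atTop_nat (n₀ + n))
    | zero => simp
    | add x y _ _ hx hy =>
      have := hx.add hy
      rw [add_zero] at this
      simpa using this
    | smul r x _ hx =>
      have := hx.const_smul r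
      rw [smul_zero] at this
      simpa using this)
  obtain ⟨C, θ, h0, h1, h2⟩ := CF_dec (fun n => ‖U n‖) n₀ m hm (by
    intro n hn
    rw [← hAm m n hn]
    refine hW _ (Submodule.subset_span ⟨n - n₀, ?_⟩)
    simp only
    congr 1
    omega)
  refine ⟨C, θ, h0, h1, fun n => le_trans ?_ (h2 n)⟩
  have := norm_le_pi_norm (U n) ⟨0, hD⟩
  simpa [hU] using this

theorem CF : CF_stmt := by
  intro u d n₀ c hc hrec hu
  classical
  -- the largest index with a nonzero coefficient
  obtain ⟨D, hD, hmax⟩ : ∃ D : Fin (d + 1), c D ≠ 0 ∧ ∀ i, D < i → c i = 0 := by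
    have hne : (Finset.univ.filter (fun i => c i ≠ 0)).Nonempty := by
      by_contra hcon
      rw [Finset.not_nonempty_iff_eq_empty, Finset.filter_eq_empty_iff] at hcon
      refine hc (funext fun i => ?_)
      have := hcon (Finset.mem_univ i)
      simpa using this
    refine ⟨_, (Finset.mem_filter.mp (Finset.max'_mem _ hne)).2, fun i hi => ?_⟩
    by_contra hcon
    exact absurd (Finset.le_max' _ i (Finset.mem_filter.mpr ⟨Finset.mem_univ _, hcon⟩))
      (not_le.mpr hi)
  have hrec' : ∀ n, n₀ ≤ n → c D * u (n + D) +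
      ∑ i ∈ Finset.univ.filter (fun i : Fin (d + 1) => i < D), c i * u (n + (i : ℕ)) = 0 := by
    intro n hn
    rw [← hrec n hn, ← Finset.sum_filter_add_sum_filter_not Finset.univ
      (fun i : Fin (d + 1) => i < D), add_comm]
    congr 1
    rw [Finset.sum_eq_single D]
    · intro i hi hne
      rw [Finset.mem_filter] at hi
      rw [hmax i (lt_of_le_of_ne (not_lt.mp hi.2) (Ne.symm hne)), zero_mul]
    · intro h
      exfalso
      exact h (Finset.mem_filter.mpr ⟨Finset.mem_univ _, lt_irrefl _⟩)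
  rcases Nat.eq_zero_or_pos (D : ℕ) with h0 | h0
  · have hz : ∀ n, n₀ ≤ n → u n = 0 := by
      intro n hn
      have h1 := hrec' n hn
      have h2 : (Finset.univ.filter (fun i : Fin (d + 1) => i < D)) = ∅ := by
        rw [Finset.filter_eq_empty_iff]
        intro i _ hi
        rw [Fin.lt_def] at hi
        omega
      rw [h2, Finset.sum_empty, add_zero, h0, add_zero] at h1
      exact (mul_eq_zero.mp h1).resolve_left hD
    refine CF_dec (fun n => ‖u n‖) n₀ 1 le_rfl fun n hn => ?_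
    rw [hz (n + 1) (by omega), norm_zero]
    positivity
  · refine CF_lead u D n₀ h0 (fun i => - (c ⟨i, by have := i.2; have := D.2; omega⟩ / c D))
      (fun n hn => ?_) hu
    have h1 := hrec' n hn
    have h2 : ∑ i ∈ Finset.univ.filter (fun i : Fin (d + 1) => i < D), c i * u (n + (i : ℕ)) =
        ∑ i : Fin (D : ℕ), c ⟨i, by have := i.2; have := D.2; omega⟩ * u (n + (i : ℕ)) := by
      symm
      refine Finset.sum_bij (fun i _ => (⟨i, by have := i.2; have := D.2; omega⟩ : Fin (d + 1)))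
        ?_ ?_ ?_ ?_
      · intro i _
        rw [Finset.mem_filter]
        exact ⟨Finset.mem_univ _, Fin.lt_def.mpr i.2⟩
      · intro i _ j _ hij
        exact Fin.ext (by simpa using congrArg Fin.val hij)
      · intro i hi
        rw [Finset.mem_filter] at hi
        exact ⟨⟨i, Fin.lt_def.mp hi.2⟩, Finset.mem_univ _, rfl⟩
      · intro i _
        rfl
    rw [h2] at h1
    have h3 : u (n + D) = - ((∑ i : Fin (D : ℕ),
        c ⟨i, by have := i.2; have := D.2; omega⟩ * u (n + (i : ℕ))) / c D) := by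
      field_simp
      linear_combination h1
    rw [h3, Finset.sum_div, ← Finset.sum_neg_distrib]
    refine Finset.sum_congr rfl fun i _ => ?_
    ring

end Pool.Agent.AV
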