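import Mathlib
import Pool.Agent.helper55.AV.Spec

/-!
Module `CT`: counting the parallel compositions.
-/

namespace Pool.Agent.AV

open Finset

/-- Blocks that avoid 1324. -/
abbrev CT_B (n : ℕ) : Type := {π : Equiv.Perm (Fin n) // Av π ∧ Blk π}

theorem CT_ext {N : ℕ} {k k' : {k // k ∈ Ico 2 N}} {b₁ : CT_B k.1} {b₂ : CT_B (N - k.1)}
    {b₁' : CT_B k'.1} {b₂' : CT_B (N - k'.1)} (h : k.1 = k'.1) (h1 : HEq b₁.1 b₁'.1)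
    (h2 : HEq b₂.1 b₂'.1) :
    (⟨k, b₁, b₂⟩ : Σ k : {k // k ∈ Ico 2 N}, CT_B k.1 × CT_B (N - k.1)) = ⟨k', b₁', b₂'⟩ := by
  obtain ⟨k, hk⟩ := k
  obtain ⟨k', hk'⟩ := k'
  simp only at h
  subst h
  obtain ⟨b₁, p1⟩ := b₁
  obtain ⟨b₂, p2⟩ := b₂
  obtain ⟨b₁', p1'⟩ := b₁'
  obtain ⟨b₂', p2'⟩ := b₂'
  simp only [heq_eq_eq] at h1 h2
  subst h1 h2
  rfl

theorem CT (hGE : GE_stmt) (hGA : GA_stmt) (hGB : GB_stmt) (hUQ : UQ_stmt) (hPT : PT_stmt) :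
    CT_stmt := by
  intro N
  have hex : ∀ t : Σ k : {k // k ∈ Ico 2 N}, CT_B k.1 × CT_B (N - k.1),
      ∃ (π : Equiv.Perm (Fin N)) (e : Fin t.1.1 ⊕ Fin (N - t.1.1) ≃ Fin N),
        Glued t.2.1.1 t.2.2.1 π e := by
    rintro ⟨⟨k, hk⟩, b₁, b₂⟩
    rw [mem_Ico] at hk
    exact hGE k (N - k) N b₁.1 b₂.1 b₁.2.2 b₂.2.2 (by omega)
  choose π e hG using hex
  have hcard : ∑ k ∈ Ico 2 N, g k * g (N - k) =
      Nat.card (Σ k : {k // k ∈ Ico 2 N}, CT_B k.1 × CT_B (N - k.1)) := by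
    rw [Nat.card_sigma, ← Finset.sum_coe_sort (Ico 2 N) (fun k => g k * g (N - k))]
    refine Finset.sum_congr rfl fun k _ => ?_
    rw [Nat.card_prod]
    rfl
  rw [hcard]
  refine Nat.card_le_card_of_injective (fun t => ⟨π t, ⟨?_, ?_⟩, ?_⟩) ?_
  · exact hGA _ _ _ _ _ _ (e t) t.2.1.2.2 t.2.2.2.2 t.2.1.2.1 t.2.2.2.1 (hG t)
  · exact (hGB _ _ _ _ _ _ (e t) (mem_Ico.mp t.1.2).1 t.2.1.2.2 t.2.2.2.2 (hG t)).1
  · intro x y hx hy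
    exact ((hGB _ _ _ _ _ _ (e t) (mem_Ico.mp t.1.2).1 t.2.1.2.2 t.2.2.2.2 (hG t)).2 x y hx
      hy).2.2
  · intro t t' h
    have hπ : π t = π t' := congrArg Subtype.val h
    have G' := hG t'
    rw [← hπ] at G'
    have hr := hUQ _ _ _ _ N _ _ _ _ (π t) (e t) (e t') t.2.1.2.2 t.2.2.2.2 t'.2.1.2.2
      t'.2.2.2.2 (hG t) G'
    obtain ⟨h1, -, h3, h4⟩ := hPT _ _ _ _ N _ _ _ _ (π t) (e t) (e t') (hG t) G' hr
    exact CT_ext h1 h3 h4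

end Pool.Agent.AV
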