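import Mathlib
import Pool.Agent.helper55.AV.Spec

/-!
Module `G1`: small values.
-/

namespace Pool.Agent.AV

theorem G1 : G1_stmt := by
  refine ⟨?_, ?_, ?_, fun n => ?_⟩
  · unfold g
    have : IsEmpty {π : Equiv.Perm (Fin 0) // Av π ∧ Blk π} :=
      ⟨fun t => absurd t.2.2.1 (lt_irrefl 0)⟩
    exact Nat.card_of_isEmpty
  · unfold g
    have hB : Blk (1 : Equiv.Perm (Fin 1)) := by
      refine ⟨Nat.one_pos, fun K hK _ => ?_⟩
      ext x
      constructor
      · intro _; exact Set.mem_univ x
      · intro _
        obtain ⟨y, hy⟩ := hK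
        rwa [Subsingleton.elim x y]
    have hA : Av (1 : Equiv.Perm (Fin 1)) := by
      intro a b c d hab
      rw [Fin.lt_def] at hab
      omega
    have : Unique {π : Equiv.Perm (Fin 1) // Av π ∧ Blk π} :=
      { default := ⟨1, hA, hB⟩
        uniq := fun t => Subtype.ext (Subsingleton.elim _ _) }
    exact Nat.card_unique
  · unfold s
    have hA : Av (1 : Equiv.Perm (Fin 0)) := by
      intro a b c d hab
      exact a.elim0
    have : Unique {π : Equiv.Perm (Fin 0) // Av π} :=
      { default := ⟨1, hA⟩
        uniq := fun t => Subtype.ext (Subsingleton.elim _ _) }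
    exact Nat.card_unique
  · unfold g s
    refine Nat.card_le_card_of_injective (fun t => ⟨t.1, t.2.1⟩) ?_
    intro t t' h
    have h' : t.1 = t'.1 := congrArg (fun x => x.1) h
    exact Subtype.ext h'

end Pool.Agent.AV
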