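import Mathlib
import Pool.Agent.helper55.AV.Spec

/-!
Module `GA`: the parallel composition of two 1324-avoiding blocks avoids 1324.
-/

namespace Pool.Agent.AV

theorem GA (hLB : LB_stmt) (hLC : LC_stmt) : GA_stmt := by
  intro k l N b₁ b₂ π e B1 B2 A1 A2 G
  obtain ⟨-, -, l1, l1z, m1, w1⟩ := hLB k b₁ B1
  obtain ⟨-, -, l2, l2z, m2, w2⟩ := hLB l b₂ B2
  obtain ⟨p1, t1⟩ := hLC k b₁ B1
  obtain ⟨p2, t2⟩ := hLC l b₂ B2
  -- comparison of two sides
  have c21 : ∀ (x : Fin k) (y : Fin l), e (Sum.inr y) < e (Sum.inl x) → Q b₂ y < Q b₁ x := by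
    intro x y h
    by_contra h'
    exact absurd ((G.c12 x y).mpr (not_lt.mp h')) (not_lt.mpr h.le)
  have r12 : ∀ (x : Fin k) (y : Fin l), π (e (Sum.inl x)) < π (e (Sum.inr y)) →
      R b₂ y < R b₁ x := by
    intro x y h
    by_contra h'
    exact absurd ((G.r21 x y).mpr (not_lt.mp h')) (not_lt.mpr h.le)
  -- the points of a cell `Q = R = j` avoid 132
  have P1 : ∀ (j : ℕ) (a b c : Fin k), Q b₁ a = j → R b₁ a = j → Q b₁ b = j → R b₁ b = j →
      Q b₁ c = j → R b₁ c = j → a < b → b < c → b₁ a < b₁ c → b₁ c < b₁ b → False := by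
    intro j a b c qa ra qb rb qc rc hab hbc hac hcb
    rcases j with _ | j
    · have h1 := (l1z a).mp qa
      have h2 := (l1z b).mp qb
      have h3 := Fin.lt_def.mp hab
      omega
    · obtain ⟨z, qz, rz, hz⟩ := p1 j ⟨a, qa⟩
      exact A1 a b c z hab hbc (hz c qc rc).1 hac hcb (hz b qb rb).2
  have P2 : ∀ (j : ℕ) (a b c : Fin l), Q b₂ a = j → R b₂ a = j → Q b₂ b = j → R b₂ b = j →
      Q b₂ c = j → R b₂ c = j → a < b → b < c → b₂ a < b₂ c → b₂ c < b₂ b → False := by
    intro j a b c qa ra qb rb qc rc hab hbc hac hcb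
    rcases j with _ | j
    · have h1 := (l2z a).mp qa
      have h2 := (l2z b).mp qb
      have h3 := Fin.lt_def.mp hab
      omega
    · obtain ⟨z, qz, rz, hz⟩ := p2 j ⟨a, qa⟩
      exact A2 a b c z hab hbc (hz c qc rc).1 hac hcb (hz b qb rb).2
  -- the points of a cell `Q = j + 1`, `R = j` avoid 213
  have T1 : ∀ (j : ℕ) (b c d : Fin k), Q b₁ b = j + 1 → R b₁ b = j → Q b₁ c = j + 1 →
      R b₁ c = j → Q b₁ d = j + 1 → R b₁ d = j → b < c → c < d → b₁ c < b₁ b → b₁ b < b₁ d →
      False := by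
    intro j b c d qb rb qc rc qd rd hbc hcd hcb hbd
    obtain ⟨w, qw, rw', hw⟩ := t1 j ⟨b, rb⟩
    exact A1 w b c d (hw b qb rb).1 hbc hcd (hw c qc rc).2 hcb hbd
  have T2 : ∀ (j : ℕ) (b c d : Fin l), Q b₂ b = j + 1 → R b₂ b = j → Q b₂ c = j + 1 →
      R b₂ c = j → Q b₂ d = j + 1 → R b₂ d = j → b < c → c < d → b₂ c < b₂ b → b₂ b < b₂ d →
      False := by
    intro j b c d qb rb qc rc qd rd hbc hcd hcb hbd
    obtain ⟨w, qw, rw', hw⟩ := t2 j ⟨b, rb⟩
    exact A2 w b c d (hw b qb rb).1 hbc hcd (hw c qc rc).2 hcb hbd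
  intro a b c d hab hbc hcd hac hcb hbd
  obtain ⟨a, rfl⟩ := e.surjective a
  obtain ⟨b, rfl⟩ := e.surjective b
  obtain ⟨c, rfl⟩ := e.surjective c
  obtain ⟨d, rfl⟩ := e.surjective d
  rcases a with a | a <;> rcases b with b | b <;> rcases c with c | c <;> rcases d with d | d <;>
    simp only [G.c11, G.c22, G.c12, G.r11, G.r22, G.r21] at hab hbc hcd hac hcb hbd
  all_goals
    first
      | have h1 := l1 a
      | have h1 := l2 a
    first
      | have h2 := l1 b
      | have h2 := l2 b
    first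
      | have h3 := l1 c
      | have h3 := l2 c
    first
      | have h4 := l1 d
      | have h4 := l2 d
    first
      | have h5 := m1 a b hab.le
      | have h5 := m2 a b hab.le
      | have h5 := c21 _ _ hab
      | have h5 := hab
    first
      | have h6 := m1 b c hbc.le
      | have h6 := m2 b c hbc.le
      | have h6 := c21 _ _ hbc
      | have h6 := hbc
    first
      | have h7 := m1 c d hcd.le
      | have h7 := m2 c d hcd.le
      | have h7 := c21 _ _ hcd
      | have h7 := hcd
    first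
      | have h8 := w1 a c hac.le
      | have h8 := w2 a c hac.le
      | have h8 := r12 _ _ hac
      | have h8 := hac
    first
      | have h9 := w1 c b hcb.le
      | have h9 := w2 c b hcb.le
      | have h9 := r12 _ _ hcb
      | have h9 := hcb
    first
      | have h10 := w1 b d hbd.le
      | have h10 := w2 b d hbd.le
      | have h10 := r12 _ _ hbd
      | have h10 := hbd
    first
      | omega
      | exact A1 a b c d hab hbc hcd hac hcb hbd
      | exact A2 a b c d hab hbc hcd hac hcb hbd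
      | exact P1 (Q b₁ a) a b c rfl (by omega) (by omega) (by omega) (by omega) (by omega) hab hbc
          hac hcb
      | exact P2 (Q b₂ a) a b c rfl (by omega) (by omega) (by omega) (by omega) (by omega) hab hbc
          hac hcb
      | exact T1 (R b₁ b) b c d (by omega) rfl (by omega) (by omega) (by omega) (by omega) hbc hcd
          hcb hbd
      | exact T2 (R b₂ b) b c d (by omega) rfl (by omega) (by omega) (by omega) (by omega) hbc hcd
          hcb hbd

end Pool.Agent.AV
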