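import Mathlib
import Pool.Agent.helper55.AV.Spec

/-!
Module `GB`: the parallel composition is a block; its first two entries.
-/

namespace Pool.Agent.AV

theorem GB (hLB : LB_stmt) : GB_stmt := by
  intro k l N b₁ b₂ π e hk B1 B2 G
  obtain ⟨-, -, l1, l1z, m1, w1⟩ := hLB k b₁ B1
  obtain ⟨-, -, l2, l2z, m2, w2⟩ := hLB l b₂ B2
  have q10 : Q b₁ ⟨0, B1.1⟩ = 0 := (l1z _).mpr rfl
  have q20 : Q b₂ ⟨0, B2.1⟩ = 0 := (l2z _).mpr rfl
  have r10 : R b₁ ⟨0, B1.1⟩ = 0 := by have := l1 ⟨0, B1.1⟩; omega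
  have r20 : R b₂ ⟨0, B2.1⟩ = 0 := by have := l2 ⟨0, B2.1⟩; omega
  -- `e (inl 0)` is the least column
  have first : ∀ z, e (Sum.inl ⟨0, B1.1⟩) ≤ z := by
    intro z
    obtain ⟨z, rfl⟩ := e.surjective z
    rcases z with z | z
    · rw [← not_lt, G.c11, not_lt, Fin.le_def]
      exact Nat.zero_le _
    · exact ((G.c12 _ _).mpr (by omega)).le
  have second : ∀ z, z ≠ e (Sum.inl ⟨0, B1.1⟩) → e (Sum.inr ⟨0, B2.1⟩) ≤ z := by
    intro z hz
    obtain ⟨z, rfl⟩ := e.surjective z
    rcases z with z | z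
    · rw [← not_lt, G.c12, q20]
      intro h
      have h2 : (z : ℕ) = 0 := (l1z z).mp (by omega)
      exact hz (by congr 1; congr 1; exact Fin.ext h2)
    · rw [← not_lt, G.c22, not_lt, Fin.le_def]
      exact Nat.zero_le _
  refine ⟨⟨?_, ?_⟩, ?_⟩
  · exact lt_of_le_of_lt (Nat.zero_le _) (e (Sum.inl ⟨0, B1.1⟩)).2
  · intro K hK hcond
    -- the first column is in `K`
    have h0 : e (Sum.inl ⟨0, B1.1⟩) ∈ K := by
      by_contra h0
      obtain ⟨x, hx⟩ := hK
      exact absurd (hcond x hx _ h0).1 (not_lt.mpr (first x))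
    -- the part of `K` on side 1
    have hK1 : {x | e (Sum.inl x) ∈ K} = Set.univ := by
      refine B1.2 _ ⟨_, h0⟩ fun x hx y hy => ?_
      have := hcond _ hx _ hy
      rwa [G.c11, G.r11] at this
    have hK1' : ∀ x, e (Sum.inl x) ∈ K := by
      intro x
      have : x ∈ {x | e (Sum.inl x) ∈ K} := by rw [hK1]; exact Set.mem_univ x
      exact this
    -- the part of `K` on side 2
    have hK2 : {x | e (Sum.inr x) ∈ K} = Set.univ := by
      refine B2.2 _ ?_ fun x hx y hy => ?_
      · by_contra hne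
        rw [Set.not_nonempty_iff_eq_empty] at hne
        have h3 : e (Sum.inr ⟨0, B2.1⟩) ∉ K := by
          intro h
          have : (⟨0, B2.1⟩ : Fin l) ∈ ({x | e (Sum.inr x) ∈ K} : Set (Fin l)) := h
          rw [hne] at this
          exact this
        have h4 := (hcond _ (hK1' ⟨1, by omega⟩) _ h3).1
        rw [G.c12, q20] at h4
        have h5 : ((⟨1, by omega⟩ : Fin k) : ℕ) = 0 := (l1z _).mp (by omega)
        simp at h5
      · have := hcond _ hx _ hy
        rwa [G.c22, G.r22] at this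
    ext z
    constructor
    · intro _; exact Set.mem_univ z
    · intro _
      obtain ⟨z, rfl⟩ := e.surjective z
      rcases z with z | z
      · exact hK1' z
      · have : z ∈ {x | e (Sum.inr x) ∈ K} := by rw [hK2]; exact Set.mem_univ z
        exact this
  · intro x y hx hy
    have hx' : e (Sum.inl ⟨0, B1.1⟩) = x := by
      refine le_antisymm (first x) ?_
      rw [Fin.le_def]; omega
    have hne : e (Sum.inr ⟨0, B2.1⟩) ≠ e (Sum.inl ⟨0, B1.1⟩) := fun h =>
      absurd (e.injective h) (by simp)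
    have hy' : e (Sum.inr ⟨0, B2.1⟩) = y := by
      refine le_antisymm (second y ?_) ?_
      · rw [hx']
        intro h
        rw [h] at hy
        omega
      · rw [Fin.le_def, hy]
        have h1 : (e (Sum.inr ⟨0, B2.1⟩) : ℕ) ≠ x := by
          intro h
          exact hne (by rw [hx']; exact Fin.ext h)
        omega
    refine ⟨⟨_, rfl, hx'⟩, ⟨_, rfl, hy'⟩, ?_⟩
    rw [← hx', ← hy', G.r21]
    omega

end Pool.Agent.AV
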