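import Mathlib
import Pool.Agent.helper55.AV.Spec
import Pool.Agent.helper48.PP.Std

/-!
Module `GE`: existence of the parallel composition.
-/

namespace Pool.Agent.AV

open Pool.Agent.helper48.PP

theorem GE_key_lt {M a b x y : ℕ} (hx : x < M) (hab : a < b) : a * M + x < b * M + y := by
  have h1 : (a + 1) * M ≤ b * M := Nat.mul_le_mul_right _ hab
  have h2 : (a + 1) * M = a * M + M := by ring
  omega

theorem GE_key_iff {M a b x y : ℕ} (hx : x < M) (hy : y < M) :
    a * M + x < b * M + y ↔ a < b ∨ (a = b ∧ x < y) := by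
  constructor
  · intro h
    rcases lt_trichotomy a b with h1 | h1 | h1
    · exact Or.inl h1
    · subst h1; exact Or.inr ⟨rfl, by omega⟩
    · have := GE_key_lt (y := x) hy h1
      omega
  · rintro (h | ⟨rfl, h⟩)
    · exact GE_key_lt hx h
    · omega

/-- Lexicographic keys on the disjoint union. -/
def GE_key {k l : ℕ} (p₁ : Fin k → ℕ) (q₁ : Fin k → ℕ) (p₂ : Fin l → ℕ) (q₂ : Fin l → ℕ) (M : ℕ) :
    Fin k ⊕ Fin l → ℕ :=
  Sum.elim (fun x => (2 * p₁ x) * M + q₁ x) (fun y => (2 * p₂ y + 1) * M + q₂ y)

theorem GE_inj {k l : ℕ} {p₁ : Fin k → ℕ} {q₁ : Fin k → ℕ} {p₂ : Fin l → ℕ} {q₂ : Fin l → ℕ}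
    {M : ℕ} (h1 : ∀ x, q₁ x < M) (h2 : ∀ x, q₂ x < M) (i1 : Function.Injective q₁)
    (i2 : Function.Injective q₂) : Function.Injective (GE_key p₁ q₁ p₂ q₂ M) := by
  have key : ∀ {a b x y : ℕ}, x < M → y < M → a * M + x = b * M + y → a = b ∧ x = y := by
    intro a b x y hx hy h
    have h3 : ¬ (a * M + x < b * M + y) := by omega
    have h4 : ¬ (b * M + y < a * M + x) := by omega
    rw [GE_key_iff hx hy] at h3
    rw [GE_key_iff hy hx] at h4
    push Not at h3 h4
    have hab : a = b := le_antisymm h4.1 h3.1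
    exact ⟨hab, le_antisymm (h4.2 hab.symm) (h3.2 hab)⟩
  rintro (x | x) (y | y) h
  · have := key (h1 x) (h1 y) h
    rw [i1 this.2]
  · have := key (h1 x) (h2 y) h
    omega
  · have := key (h2 x) (h1 y) h
    omega
  · have := key (h2 x) (h2 y) h
    rw [i2 this.2]

theorem GE (hLB : LB_stmt) : GE_stmt := by
  intro k l N b₁ b₂ B1 B2 hN
  obtain ⟨-, -, -, -, m1, w1⟩ := hLB k b₁ B1
  obtain ⟨-, -, -, -, m2, w2⟩ := hLB l b₂ B2
  set M := k + l + 1 with hM
  have hcard : Fintype.card (Fin k ⊕ Fin l) = N := by simp [hN]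
  -- the column key
  set cf : Fin k ⊕ Fin l → ℕ :=
    GE_key (Q b₁) (fun x => (x : ℕ)) (Q b₂) (fun x => (x : ℕ)) M with hcf
  have hcfi : Function.Injective cf :=
    GE_inj (fun x => by have := x.2; omega) (fun x => by have := x.2; omega)
      (fun x y h => Fin.ext h) (fun x y h => Fin.ext h)
  -- the row key, from top to bottom
  set rf : Fin k ⊕ Fin l → ℕ :=
    GE_key (R b₁) (fun x => M - 1 - (b₁ x : ℕ)) (R b₂) (fun x => M - 1 - (b₂ x : ℕ)) M with hrf
  have hrfi : Function.Injective rf := by
    refine GE_inj (fun x => by omega) (fun x => by omega) (fun x y h => ?_) (fun x y h => ?_)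
    · have hx := (b₁ x).2
      have hy := (b₁ y).2
      refine b₁.injective (Fin.ext ?_)
      omega
    · have hx := (b₂ x).2
      have hy := (b₂ y).2
      refine b₂.injective (Fin.ext ?_)
      omega
  obtain ⟨B, hB⟩ : ∃ B, ∀ x, rf x < B := by
    refine ⟨(Finset.univ.sup rf) + 1, fun x => ?_⟩
    have := Finset.le_sup (f := rf) (Finset.mem_univ x)
    omega
  set gf : Fin k ⊕ Fin l → ℕ := fun x => B - rf x with hgf
  have hgfi : Function.Injective gf := by
    intro x y h
    refine hrfi ?_
    have h1 := hB x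
    have h2 := hB y
    simp only [hgf] at h
    omega
  have hlt : ∀ x y, gf x < gf y ↔ rf y < rf x := by
    intro x y
    have h1 := hB x
    have h2 := hB y
    simp only [hgf]
    omega
  refine ⟨std hcard cf gf hcfi hgfi, rk hcard cf hcfi, ?_⟩
  constructor
  · intro x y
    rw [rk_lt]
    simp only [hcf, GE_key, Sum.elim_inl]
    rw [GE_key_iff (by have := x.2; omega) (by have := y.2; omega)]
    constructor
    · rintro (h | ⟨-, h⟩)
      · by_contra h'
        have := m1 y x (not_lt.mp h')
        omega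
      · exact h
    · intro h
      have h2 := m1 x y h.le
      have h3 := Fin.lt_def.mp h
      omega
  · intro x y
    rw [rk_lt]
    simp only [hcf, GE_key, Sum.elim_inr]
    rw [GE_key_iff (by have := x.2; omega) (by have := y.2; omega)]
    constructor
    · rintro (h | ⟨-, h⟩)
      · by_contra h'
        have := m2 y x (not_lt.mp h')
        omega
      · exact h
    · intro h
      have h2 := m2 x y h.le
      have h3 := Fin.lt_def.mp h
      omega
  · intro x y
    rw [rk_lt]
    simp only [hcf, GE_key, Sum.elim_inl, Sum.elim_inr]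
    rw [GE_key_iff (by have := x.2; omega) (by have := y.2; omega)]
    omega
  · intro x y
    rw [std_apply, std_apply, rk_lt, hlt]
    simp only [hrf, GE_key, Sum.elim_inl]
    rw [GE_key_iff (by omega) (by omega)]
    have hx := (b₁ x).2
    have hy := (b₁ y).2
    constructor
    · rintro (h | ⟨-, h⟩)
      · by_contra h'
        have := w1 y x (not_lt.mp h')
        omega
      · rw [Fin.lt_def]; omega
    · intro h
      have h2 := w1 x y h.le
      have h3 := Fin.lt_def.mp h
      omega
  · intro x y
    rw [std_apply, std_apply, rk_lt, hlt]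
    simp only [hrf, GE_key, Sum.elim_inr]
    rw [GE_key_iff (by omega) (by omega)]
    have hx := (b₂ x).2
    have hy := (b₂ y).2
    constructor
    · rintro (h | ⟨-, h⟩)
      · by_contra h'
        have := w2 y x (not_lt.mp h')
        omega
      · rw [Fin.lt_def]; omega
    · intro h
      have h2 := w2 x y h.le
      have h3 := Fin.lt_def.mp h
      omega
  · intro x y
    rw [std_apply, std_apply, rk_lt, hlt]
    simp only [hrf, GE_key, Sum.elim_inl, Sum.elim_inr]
    rw [GE_key_iff (by omega) (by omega)]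
    omega

end Pool.Agent.AV
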