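import Mathlib
import Pool.Agent.helper55.AV.Spec

/-!
Module `LB`: labels of a block.
-/

namespace Pool.Agent.AV

variable {n : ℕ} {b : Equiv.Perm (Fin n)}

theorem LB_CV (j : ℕ) {x : Fin n} (h : x ∈ Cs b j) : x ∈ Vs b j := ⟨x, h, le_rfl⟩

theorem LB_VC (j : ℕ) {x : Fin n} (h : x ∈ Vs b j) : x ∈ Cs b (j + 1) := ⟨x, h, le_rfl⟩

theorem LB_C_left {j : ℕ} {x y : Fin n} (hxy : x ≤ y) (h : y ∈ Cs b j) : x ∈ Cs b j := by
  cases j with
  | zero =>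
    have h1 : (y : ℕ) = 0 := h
    have h2 := Fin.le_def.mp hxy
    have h3 : (x : ℕ) = 0 := by omega
    exact h3
  | succ j =>
    obtain ⟨z, hz, hyz⟩ := h
    exact ⟨z, hz, hxy.trans hyz⟩

theorem LB_V_up {j : ℕ} {x y : Fin n} (hxy : b x ≤ b y) (h : x ∈ Vs b j) : y ∈ Vs b j := by
  obtain ⟨z, hz, hzx⟩ := h
  exact ⟨z, hz, hzx.trans hxy⟩

theorem LB_C_mono {i j : ℕ} (hij : i ≤ j) {x : Fin n} (h : x ∈ Cs b i) : x ∈ Cs b j := by
  induction hij with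
  | refl => exact h
  | step _ ih => exact LB_VC _ (LB_CV _ ih)

theorem LB_V_mono {i j : ℕ} (hij : i ≤ j) {x : Fin n} (h : x ∈ Vs b i) : x ∈ Vs b j := by
  induction hij with
  | refl => exact h
  | step _ ih => exact LB_CV _ (LB_VC _ ih)

theorem LB_all (hb : Blk b) (x : Fin n) : ∃ j, x ∈ Cs b j := by
  have h := hb.2 {x | ∃ j, x ∈ Cs b j} ⟨⟨0, hb.1⟩, 0, rfl⟩ ?_
  · have h2 : x ∈ (Set.univ : Set (Fin n)) := Set.mem_univ x
    rw [← h] at h2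
    exact h2
  · rintro x ⟨j, hx⟩ y hy
    constructor
    · by_contra h
      exact hy ⟨j, LB_C_left (not_lt.mp h) hx⟩
    · by_contra h
      exact hy ⟨j + 1, LB_VC _ (LB_V_up (not_lt.mp h) (LB_CV _ hx))⟩

theorem LB_Q (hb : Blk b) (x : Fin n) (j : ℕ) : x ∈ Cs b j ↔ Q b x ≤ j := by
  have hne : {j | x ∈ Cs b j}.Nonempty := LB_all hb x
  constructor
  · intro h
    exact Nat.sInf_le h
  · intro h
    exact LB_C_mono h (Nat.sInf_mem hne)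

theorem LB_R (hb : Blk b) (x : Fin n) (j : ℕ) : x ∈ Vs b j ↔ R b x ≤ j := by
  have hne : {j | x ∈ Vs b j}.Nonempty := by
    obtain ⟨j, hj⟩ := LB_all hb x
    exact ⟨j, LB_CV _ hj⟩
  constructor
  · intro h
    exact Nat.sInf_le h
  · intro h
    exact LB_V_mono h (Nat.sInf_mem hne)

theorem LB : LB_stmt := by
  intro n b hb
  refine ⟨LB_Q hb, LB_R hb, fun x => ⟨?_, ?_⟩, fun x => ?_, fun x y hxy => ?_, fun x y hxy => ?_⟩
  · rw [← LB_R hb]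
    exact LB_CV _ ((LB_Q hb x _).mpr le_rfl)
  · rw [← LB_Q hb]
    exact LB_VC _ ((LB_R hb x _).mpr le_rfl)
  · rw [← Nat.le_zero, ← LB_Q hb]
    exact Iff.rfl
  · rw [← LB_Q hb]
    exact LB_C_left hxy ((LB_Q hb y _).mpr le_rfl)
  · rw [← LB_R hb]
    exact LB_V_up hxy ((LB_R hb x _).mpr le_rfl)

end Pool.Agent.AV
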