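import Mathlib
import Pool.Agent.helper55.AV.Spec

/-!
Module `LC`: the cells of a block.
-/

namespace Pool.Agent.AV

theorem LC (hLB : LB_stmt) : LC_stmt := by
  intro n b hb
  obtain ⟨cq, vr, l, -, mq, mr⟩ := hLB n b hb
  classical
  refine ⟨fun j hj => ?_, fun j hj => ?_⟩
  · obtain ⟨x, hx⟩ := hj
    -- the last column of `Cs b (j + 1)`
    obtain ⟨z, hz, hmax⟩ : ∃ z ∈ Finset.univ.filter (fun y : Fin n => y ∈ Cs b (j + 1)),
        ∀ y ∈ Finset.univ.filter (fun y : Fin n => y ∈ Cs b (j + 1)), y ≤ z := by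
      have hne : (Finset.univ.filter (fun y : Fin n => y ∈ Cs b (j + 1))).Nonempty :=
        ⟨x, by rw [Finset.mem_filter]; exact ⟨Finset.mem_univ _, (cq x _).mpr hx.le⟩⟩
      exact ⟨_, Finset.max'_mem _ hne, fun y hy => Finset.le_max' _ y hy⟩
    rw [Finset.mem_filter] at hz
    have hmax' : ∀ y, y ∈ Cs b (j + 1) → y ≤ z := fun y hy =>
      hmax y (by rw [Finset.mem_filter]; exact ⟨Finset.mem_univ _, hy⟩)
    have hz' := hz.2
    obtain ⟨y, hy, hzy⟩ := hz'
    have hyV : y ∈ Vs b j := hy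
    have hyC : y ∈ Cs b (j + 1) := ⟨y, hy, le_rfl⟩
    have hyz : y = z := le_antisymm (hmax' y hyC) hzy
    subst hyz
    have rz : R b y ≤ j := (vr y j).mp hyV
    have hxz : x ≤ y := hmax' x ((cq x _).mpr hx.le)
    have qz := mq x y hxz
    have lz := l y
    refine ⟨y, by omega, by omega, fun u hu hu' => ?_⟩
    have huz : u ≤ y := hmax' u ((cq u _).mpr hu.le)
    have hne : u ≠ y := by
      rintro rfl
      omega
    refine ⟨lt_of_le_of_ne huz hne, ?_⟩
    by_contra hcon
    have := mr y u (not_lt.mp hcon)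
    omega
  · obtain ⟨x, hx⟩ := hj
    obtain ⟨w, hw, hmin⟩ : ∃ w ∈ Finset.univ.filter (fun y : Fin n => y ∈ Vs b j),
        ∀ y ∈ Finset.univ.filter (fun y : Fin n => y ∈ Vs b j), b w ≤ b y := by
      have hne : (Finset.univ.filter (fun y : Fin n => y ∈ Vs b j)).Nonempty :=
        ⟨x, by rw [Finset.mem_filter]; exact ⟨Finset.mem_univ _, (vr x _).mpr hx.le⟩⟩
      exact Finset.exists_min_image _ (fun y => b y) hne
    rw [Finset.mem_filter] at hw
    have hmin' : ∀ y, y ∈ Vs b j → b w ≤ b y := fun y hy =>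
      hmin y (by rw [Finset.mem_filter]; exact ⟨Finset.mem_univ _, hy⟩)
    obtain ⟨z, hz, hzw⟩ := hw.2
    have hzV : z ∈ Vs b j := ⟨z, hz, le_rfl⟩
    have hzw' : z = w := b.injective (le_antisymm hzw (hmin' z hzV))
    subst hzw'
    have qz : Q b z ≤ j := (cq z j).mp hz
    have hxz := hmin' x ((vr x _).mpr hx.le)
    have rz := mr z x hxz
    have lz := l z
    refine ⟨z, by omega, by omega, fun u hu hu' => ?_⟩
    have huz : b z ≤ b u := hmin' u ((vr u _).mpr hu'.le)
    have hne : u ≠ z := by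
      rintro rfl
      omega
    have hne' : b z ≠ b u := fun h => hne (b.injective h).symm
    refine ⟨?_, lt_of_le_of_ne huz hne'⟩
    by_contra hcon
    have := mq u z (not_lt.mp hcon)
    omega

end Pool.Agent.AV
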