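import Mathlib
import Pool.Agent.helper55.AV.Spec

/-!
Module `NR`: no linear recurrence with constant coefficients.
-/

namespace Pool.Agent.AV

open Filter Topology

theorem NR (hCF : CF_stmt) : NR_stmt := by
  rintro s γ hγ hlim h0 ⟨d, n₀, c, hc, hrec⟩
  have hγ0 : 0 < γ := lt_of_lt_of_le one_pos hγ
  have hγC : (γ : ℂ) ≠ 0 := by exact_mod_cast hγ0.ne'
  -- the normalised sequence
  obtain ⟨C, θ, hθ0, hθ1, hu⟩ := hCF (fun n => ((s n : ℂ) / (γ : ℂ) ^ n)) d n₀
    (fun i => c i * (γ : ℂ) ^ (i : ℕ)) (by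
      intro h
      refine hc (funext fun i => ?_)
      have h1 := congrFun h i
      simp only [Pi.zero_apply, mul_eq_zero, pow_eq_zero_iff', hγC, false_and, or_false] at h1
      exact h1) (by
      intro n hn
      have h1 := hrec n hn
      have h2 : ∀ i : Fin (d + 1), c i * (γ : ℂ) ^ (i : ℕ) *
          ((s (n + (i : ℕ)) : ℂ) / (γ : ℂ) ^ (n + (i : ℕ))) =
          (c i * (s (n + (i : ℕ)) : ℂ)) / (γ : ℂ) ^ n := by
        intro i
        rw [pow_add]
        field_simp
      simp only [h2]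
      rw [← Finset.sum_div, h1, zero_div]) (by
      have h1 : Tendsto (fun n : ℕ => (((s n : ℝ) / γ ^ n : ℝ) : ℂ)) atTop (𝓝 ((0 : ℝ) : ℂ)) :=
        (Complex.continuous_ofReal.tendsto _).comp h0
      rw [Complex.ofReal_zero] at h1
      refine h1.congr fun n => ?_
      push_cast
      rfl)
  -- the bound for `s`
  have hs : ∀ n, (s n : ℝ) ≤ C * (θ * γ) ^ n := by
    intro n
    have h1 := hu n
    rw [norm_div, norm_pow, Complex.norm_natCast, Complex.norm_real, Real.norm_of_nonneg hγ0.le,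
      div_le_iff₀ (by positivity)] at h1
    rw [mul_pow]
    linarith
  -- the root
  have hC : 0 < C + 1 := by
    have h1 := hs 0
    have h2 : (0 : ℝ) ≤ s 0 := Nat.cast_nonneg _
    simp only [pow_zero, mul_one] at h1
    linarith
  have hroot : ∀ᶠ n : ℕ in atTop, (s n : ℝ) ^ ((1 : ℝ) / n) ≤
      (C + 1) ^ ((1 : ℝ) / n) * (θ * γ) := by
    filter_upwards [eventually_ge_atTop 1] with n hn
    have hn' : (0 : ℝ) < n := by exact_mod_cast hn
    have h1 : (s n : ℝ) ≤ (C + 1) * (θ * γ) ^ n := by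
      have := hs n
      have h3 : 0 < (θ * γ) ^ n := by positivity
      nlinarith
    calc (s n : ℝ) ^ ((1 : ℝ) / n) ≤ ((C + 1) * (θ * γ) ^ n) ^ ((1 : ℝ) / n) :=
          Real.rpow_le_rpow (Nat.cast_nonneg _) h1 (by positivity)
      _ = (C + 1) ^ ((1 : ℝ) / n) * ((θ * γ) ^ n) ^ ((1 : ℝ) / n) :=
          Real.mul_rpow hC.le (by positivity)
      _ = (C + 1) ^ ((1 : ℝ) / n) * (θ * γ) := by
          congr 1
          rw [← Real.rpow_natCast, ← Real.rpow_mul (by positivity), mul_one_div_cancel hn'.ne',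
            Real.rpow_one]
  have hlim2 : Tendsto (fun n : ℕ => (C + 1) ^ ((1 : ℝ) / n) * (θ * γ)) atTop
      (𝓝 (1 * (θ * γ))) := by
    refine Tendsto.mul_const _ ?_
    have h1 : Tendsto (fun n : ℕ => ((1 : ℝ) / n)) atTop (𝓝 0) := by
      simpa using tendsto_one_div_atTop_nhds_zero_nat (𝕜 := ℝ)
    have h2 := (Real.continuous_const_rpow hC.ne').tendsto 0
    rw [Real.rpow_zero] at h2
    exact h2.comp h1
  have hfin := le_of_tendsto_of_tendsto hlim hlim2 hroot
  nlinarith

end Pool.Agent.AV
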