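import Mathlib
import Pool.Agent.helper55.AV.Spec
import Pool.Agent.helper48.PP.Count
import Pool.Agent.helper48.PP.MT

/-!
Module `SE`: the counting function in other notations.
-/

namespace Pool.Agent.AV

open Pool.Agent.helper48.PP

/-- The pattern 1324. -/
def SE_p : Equiv.Perm (Fin 4) := Equiv.swap 1 2

theorem SE_p_lt : ∀ i j : Fin 4, SE_p i < SE_p j ↔
    (![0, 2, 1, 3] : Fin 4 → ℕ) i < (![0, 2, 1, 3] : Fin 4 → ℕ) j := by
  unfold SE_p
  decide

theorem SE_av {n : ℕ} (σ : Equiv.Perm (Fin n)) : Av σ ↔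
    ¬ ∃ f : Fin 4 → Fin n, StrictMono f ∧ ∀ i j : Fin 4, (σ (f i) < σ (f j) ↔
      (![0, 2, 1, 3] : Fin 4 → ℕ) i < (![0, 2, 1, 3] : Fin 4 → ℕ) j) := by
  constructor
  · rintro h ⟨f, hf, hp⟩
    refine h (f 0) (f 1) (f 2) (f 3) (hf (by decide)) (hf (by decide)) (hf (by decide)) ?_ ?_ ?_
    · rw [hp]; decide
    · rw [hp]; decide
    · rw [hp]; decide
  · intro h a b c d hab hbc hcd hac hcb hbd
    refine h ⟨![a, b, c, d], ?_, ?_⟩
    · intro i j hij
      fin_cases i <;> fin_cases j <;> simp at hij ⊢ <;> order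
    · intro i j
      have h1 := hac.le
      have h2 := hcb.le
      have h3 := hbd.le
      have h4 := hac.trans hcb
      have h5 := hcb.trans hbd
      have h6 := h4.trans hbd
      fin_cases i <;> fin_cases j <;> simp <;> order

theorem SE_av' {n : ℕ} (σ : Equiv.Perm (Fin n)) : Av σ ↔ ¬ Contains σ SE_p := by
  rw [SE_av]
  unfold Contains
  simp only [SE_p_lt]

theorem SE_count (n : ℕ) : s n = avCount n SE_p := by
  rw [avCount_eq]
  unfold s
  exact Nat.card_congr (Equiv.subtypeEquivRight fun σ => SE_av' σ)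

theorem SE_indec : SkewIndec SE_p := by
  intro c hc hc4
  refine ⟨0, 3, ?_, ?_, by decide⟩
  · simpa using hc
  · change c ≤ 3
    omega

theorem SE : SE_stmt := by
  refine ⟨fun n => ?_, fun m n => ?_, ?_, fun n => ?_, ?_⟩
  · unfold s
    exact Nat.card_congr (Equiv.subtypeEquivRight fun σ => SE_av σ)
  · rw [SE_count, SE_count, SE_count]
    exact avCount_mul SE_indec m n
  · obtain ⟨c, hc, h⟩ := stanley_wilf (k := 2) SE_p
    exact ⟨c, hc, fun n => by rw [SE_count]; exact h n⟩
  · rw [SE_count]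
    exact one_le_avCount SE_indec (by norm_num) n
  · unfold s
    have h : ∀ π : Equiv.Perm (Fin 2), Av π := by
      intro π a b c d hab hbc hcd
      rw [Fin.lt_def] at hab hbc hcd
      have := d.2
      omega
    rw [Nat.card_congr (Equiv.subtypeUnivEquiv h), Nat.card_perm, Nat.card_eq_fintype_card,
      Fintype.card_fin]
    rfl

end Pool.Agent.AV
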