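import Mathlib
import Pool.Agent.helper55.AV.Spec

/-!
Module `TC`: the main inequality.
-/

namespace Pool.Agent.AV

open Finset

theorem TC (hCT : CT_stmt) (hTI : TI_stmt) (hG1 : G1_stmt) : TC_stmt := by
  intro N hN
  have h1 := hCT N
  have h2 := hTI (N - 1) (by omega)
  rw [Nat.sub_add_cancel (by omega : 1 ≤ N)] at h2
  rw [Finset.sum_eq_sum_Ico_succ_bot (by omega : 1 < N), hG1.2.1, one_mul]
  have h3 : Nat.card {π : Equiv.Perm (Fin N) // (Av π ∧ Blk π) ∧
      ∀ x y : Fin N, (x : ℕ) = 0 → (y : ℕ) = 1 → π x < π y} +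
    Nat.card {π : Equiv.Perm (Fin N) // (Av π ∧ Blk π) ∧
      ∀ x y : Fin N, (x : ℕ) = 0 → (y : ℕ) = 1 → π y < π x} ≤ g N := by
    rw [← Nat.card_sum]
    refine Nat.card_le_card_of_injective (fun t => t.elim (fun a => ⟨a.1, a.2.1⟩)
      (fun a => ⟨a.1, a.2.1⟩)) ?_
    rintro (⟨a, ha⟩ | ⟨a, ha⟩) (⟨b, hb⟩ | ⟨b, hb⟩) h
    · have : a = b := congrArg Subtype.val h
      subst this; rfl
    · exfalso
      have : a = b := congrArg Subtype.val h
      subst this
      have u1 := ha.2 ⟨0, by omega⟩ ⟨1, by omega⟩ rfl rfl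
      have u2 := hb.2 ⟨0, by omega⟩ ⟨1, by omega⟩ rfl rfl
      exact lt_asymm u1 u2
    · exfalso
      have : a = b := congrArg Subtype.val h
      subst this
      have u1 := ha.2 ⟨0, by omega⟩ ⟨1, by omega⟩ rfl rfl
      have u2 := hb.2 ⟨0, by omega⟩ ⟨1, by omega⟩ rfl rfl
      exact lt_asymm u1 u2
    · have : a = b := congrArg Subtype.val h
      subst this; rfl
  have h4 : (1 + 1 : ℕ) = 2 := rfl
  rw [h4]
  omega

end Pool.Agent.AV
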