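import Mathlib
import Pool.Agent.helper55.AV.Spec

/-!
Module `UQ`: the set of the columns of the first block is determined by the parallel composition.
-/

namespace Pool.Agent.AV

open Set

section

variable {k l N : ℕ} {b₁ : Equiv.Perm (Fin k)} {b₂ : Equiv.Perm (Fin l)}
  {π : Equiv.Perm (Fin N)} {e : Fin k ⊕ Fin l ≃ Fin N}

/-- Image of a set of columns of the first block. -/
def UQ_i1 (e : Fin k ⊕ Fin l ≃ Fin N) (A : Set (Fin k)) : Set (Fin N) :=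
  (fun x => e (Sum.inl x)) '' A

/-- Image of a set of columns of the second block. -/
def UQ_i2 (e : Fin k ⊕ Fin l ≃ Fin N) (A : Set (Fin l)) : Set (Fin N) :=
  (fun x => e (Sum.inr x)) '' A

theorem UQ_i1_inl (A : Set (Fin k)) (x : Fin k) : e (Sum.inl x) ∈ UQ_i1 e A ↔ x ∈ A := by
  unfold UQ_i1
  constructor
  · rintro ⟨y, hy, h⟩
    have := Sum.inl_injective (e.injective h)
    rwa [← this]
  · intro h
    exact ⟨x, h, rfl⟩

theorem UQ_i1_inr (A : Set (Fin k)) (x : Fin l) : e (Sum.inr x) ∉ UQ_i1 e A := by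
  unfold UQ_i1
  rintro ⟨y, hy, h⟩
  exact absurd (e.injective h) (by simp)

theorem UQ_i2_inr (A : Set (Fin l)) (x : Fin l) : e (Sum.inr x) ∈ UQ_i2 e A ↔ x ∈ A := by
  unfold UQ_i2
  constructor
  · rintro ⟨y, hy, h⟩
    have := Sum.inr_injective (e.injective h)
    rwa [← this]
  · intro h
    exact ⟨x, h, rfl⟩

theorem UQ_i2_inl (A : Set (Fin l)) (x : Fin k) : e (Sum.inl x) ∉ UQ_i2 e A := by
  unfold UQ_i2
  rintro ⟨y, hy, h⟩
  exact absurd (e.injective h) (by simp)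

theorem UQ_ex1 (A : Set (Fin k)) (p : Fin N → Prop) :
    (∃ y ∈ UQ_i1 e A, p y) ↔ ∃ y ∈ A, p (e (Sum.inl y)) := by
  unfold UQ_i1
  constructor
  · rintro ⟨-, ⟨y, hy, rfl⟩, h⟩
    exact ⟨y, hy, h⟩
  · rintro ⟨y, hy, h⟩
    exact ⟨_, ⟨y, hy, rfl⟩, h⟩

theorem UQ_ex2 (A : Set (Fin l)) (p : Fin N → Prop) :
    (∃ y ∈ UQ_i2 e A, p y) ↔ ∃ y ∈ A, p (e (Sum.inr y)) := by
  unfold UQ_i2
  constructor
  · rintro ⟨-, ⟨y, hy, rfl⟩, h⟩
    exact ⟨y, hy, h⟩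
  · rintro ⟨y, hy, h⟩
    exact ⟨_, ⟨y, hy, rfl⟩, h⟩

theorem UQ_ext {A B : Set (Fin N)} (h1 : ∀ x : Fin k, e (Sum.inl x) ∈ A ↔ e (Sum.inl x) ∈ B)
    (h2 : ∀ x : Fin l, e (Sum.inr x) ∈ A ↔ e (Sum.inr x) ∈ B) : A = B := by
  ext x
  obtain ⟨x, rfl⟩ := e.surjective x
  rcases x with x | x
  · exact h1 x
  · exact h2 x

/-- The recursion for the four sequences of sets. -/
theorem UQ_rec (hLB : LB_stmt) (B1 : Blk b₁) (B2 : Blk b₂) (G : Glued b₁ b₂ π e) :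
    (UQ_i1 e (Cs b₁ 0) = {x | ∀ y, x ≤ y}) ∧
    (UQ_i2 e (Cs b₂ 0) = {x | x ∉ UQ_i1 e (Cs b₁ 0) ∧ ∀ y, y ∉ UQ_i1 e (Cs b₁ 0) → x ≤ y}) ∧
    (UQ_i1 e (Vs b₁ 0) = {x | ∃ y ∈ UQ_i1 e (Cs b₁ 0), π y ≤ π x}) ∧
    (∀ j, UQ_i1 e (Vs b₁ (j + 1)) =
      {x | x ∉ UQ_i2 e (Vs b₂ j) ∧ ∃ y ∈ UQ_i1 e (Cs b₁ (j + 1)), π y ≤ π x}) ∧
    (∀ j, UQ_i2 e (Vs b₂ j) =
      {x | x ∉ UQ_i1 e (Vs b₁ j) ∧ ∃ y ∈ UQ_i2 e (Cs b₂ j), π y ≤ π x}) ∧
    (∀ j, UQ_i1 e (Cs b₁ (j + 1)) =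
      {x | x ∉ UQ_i2 e (Cs b₂ j) ∧ ∃ y ∈ UQ_i1 e (Vs b₁ j), x ≤ y}) ∧
    (∀ j, UQ_i2 e (Cs b₂ (j + 1)) =
      {x | x ∉ UQ_i1 e (Cs b₁ (j + 1)) ∧ ∃ y ∈ UQ_i2 e (Vs b₂ j), x ≤ y}) := by
  obtain ⟨cq1, vr1, l1, l1z, m1, w1⟩ := hLB k b₁ B1
  obtain ⟨cq2, vr2, l2, l2z, m2, w2⟩ := hLB l b₂ B2
  have c11 : ∀ x y : Fin k, e (Sum.inl x) ≤ e (Sum.inl y) ↔ x ≤ y := by
    intro x y
    rw [← not_lt, ← not_lt, G.c11]
  have c22 : ∀ x y : Fin l, e (Sum.inr x) ≤ e (Sum.inr y) ↔ x ≤ y := by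
    intro x y
    rw [← not_lt, ← not_lt, G.c22]
  have r11 : ∀ x y : Fin k, π (e (Sum.inl x)) ≤ π (e (Sum.inl y)) ↔ b₁ x ≤ b₁ y := by
    intro x y
    rw [← not_lt, ← not_lt, G.r11]
  have r22 : ∀ x y : Fin l, π (e (Sum.inr x)) ≤ π (e (Sum.inr y)) ↔ b₂ x ≤ b₂ y := by
    intro x y
    rw [← not_lt, ← not_lt, G.r22]
  have c12 : ∀ (x : Fin k) (y : Fin l), e (Sum.inl x) ≤ e (Sum.inr y) ↔ Q b₁ x ≤ Q b₂ y := by
    intro x y
    rw [← G.c12 x y]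
    have : e (Sum.inl x) ≠ e (Sum.inr y) := fun h => absurd (e.injective h) (by simp)
    exact this.le_iff_lt
  have c21 : ∀ (x : Fin k) (y : Fin l), e (Sum.inr y) ≤ e (Sum.inl x) ↔ Q b₂ y < Q b₁ x := by
    intro x y
    rw [← not_lt, G.c12 x y, not_le]
  have r21 : ∀ (x : Fin k) (y : Fin l), π (e (Sum.inr y)) ≤ π (e (Sum.inl x)) ↔
      R b₁ x ≤ R b₂ y := by
    intro x y
    rw [← G.r21 x y]
    have : π (e (Sum.inr y)) ≠ π (e (Sum.inl x)) :=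
      fun h => absurd (e.injective (π.injective h)) (by simp)
    exact this.le_iff_lt
  have r12 : ∀ (x : Fin k) (y : Fin l), π (e (Sum.inl x)) ≤ π (e (Sum.inr y)) ↔
      R b₂ y < R b₁ x := by
    intro x y
    rw [← not_lt, G.r21 x y, not_le]
  have z1 : ∀ x : Fin k, x ∈ Cs b₁ 0 ↔ ∀ y, x ≤ y := by
    intro x
    rw [cq1, Nat.le_zero, l1z]
    constructor
    · intro h y
      rw [Fin.le_def]; omega
    · intro h
      have h2 := Fin.le_def.mp (h ⟨0, B1.1⟩)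
      simpa using h2
  have z2 : ∀ x : Fin l, x ∈ Cs b₂ 0 ↔ ∀ y, x ≤ y := by
    intro x
    rw [cq2, Nat.le_zero, l2z]
    constructor
    · intro h y
      rw [Fin.le_def]; omega
    · intro h
      have h2 := Fin.le_def.mp (h ⟨0, B2.1⟩)
      simpa using h2
  refine ⟨?_, ?_, ?_, fun j => ?_, fun j => ?_, fun j => ?_, fun j => ?_⟩
  · refine UQ_ext (e := e) (fun x => ?_) (fun x => ?_)
    · rw [UQ_i1_inl, Set.mem_setOf_eq, z1]
      constructor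
      · intro h y
        obtain ⟨y, rfl⟩ := e.surjective y
        rcases y with y | y
        · rw [c11]; exact h y
        · rw [c12]
          have : Q b₁ x = 0 := by
            have h3 := (z1 x).mpr h
            rw [cq1] at h3
            omega
          omega
      · intro h y
        have := h (e (Sum.inl y))
        rwa [c11] at this
    · constructor
      · intro h; exact absurd h (UQ_i1_inr _ _)
      · intro h
        have h2 := h (e (Sum.inl ⟨0, B1.1⟩))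
        rw [c21] at h2
        have h3 : Q b₁ ⟨0, B1.1⟩ = 0 := (l1z _).mpr rfl
        omega
  · refine UQ_ext (e := e) (fun x => ?_) (fun x => ?_)
    · constructor
      · intro h; exact absurd h (UQ_i2_inl _ _)
      · rintro ⟨h1, h2⟩
        exfalso
        have h3 := h2 (e (Sum.inr ⟨0, B2.1⟩)) (UQ_i1_inr _ _)
        rw [c12] at h3
        have h4 : Q b₂ ⟨0, B2.1⟩ = 0 := (l2z _).mpr rfl
        rw [UQ_i1_inl, cq1] at h1
        omega
    · rw [UQ_i2_inr, Set.mem_setOf_eq, z2]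
      constructor
      · intro h
        refine ⟨UQ_i1_inr _ _, fun y hy => ?_⟩
        obtain ⟨y, rfl⟩ := e.surjective y
        have hx : Q b₂ x = 0 := by
          have h3 := (z2 x).mpr h
          rw [cq2] at h3
          omega
        rcases y with y | y
        · rw [c21]
          rw [UQ_i1_inl, cq1] at hy
          omega
        · rw [c22]; exact h y
      · rintro ⟨-, h⟩ y
        have := h (e (Sum.inr y)) (UQ_i1_inr _ _)
        rwa [c22] at this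
  · refine UQ_ext (e := e) (fun x => ?_) (fun x => ?_)
    · rw [UQ_i1_inl, Set.mem_setOf_eq, UQ_ex1]
      simp only [r11]
      exact Iff.rfl
    · rw [Set.mem_setOf_eq, UQ_ex1]
      constructor
      · intro h; exact absurd h (UQ_i1_inr _ _)
      · rintro ⟨y, hy, h⟩
        rw [r12] at h
        rw [cq1] at hy
        have := l1 y
        omega
  · refine UQ_ext (e := e) (fun x => ?_) (fun x => ?_)
    · rw [UQ_i1_inl, Set.mem_setOf_eq, UQ_ex1]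
      simp only [r11]
      exact ⟨fun h => ⟨UQ_i2_inl _ _, h⟩, fun h => h.2⟩
    · rw [Set.mem_setOf_eq, UQ_ex1]
      constructor
      · intro h; exact absurd h (UQ_i1_inr _ _)
      · rintro ⟨h0, y, hy, h⟩
        exfalso
        rw [r12] at h
        rw [cq1] at hy
        rw [UQ_i2_inr, vr2] at h0
        have := l1 y
        omega
  · refine UQ_ext (e := e) (fun x => ?_) (fun x => ?_)
    · rw [Set.mem_setOf_eq, UQ_ex2]
      constructor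
      · intro h; exact absurd h (UQ_i2_inl _ _)
      · rintro ⟨h0, y, hy, h⟩
        exfalso
        rw [r21] at h
        rw [cq2] at hy
        rw [UQ_i1_inl, vr1] at h0
        have := l2 y
        omega
    · rw [UQ_i2_inr, Set.mem_setOf_eq, UQ_ex2]
      simp only [r22]
      exact ⟨fun h => ⟨UQ_i1_inr _ _, h⟩, fun h => h.2⟩
  · refine UQ_ext (e := e) (fun x => ?_) (fun x => ?_)
    · rw [UQ_i1_inl, Set.mem_setOf_eq, UQ_ex1]
      simp only [c11]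
      exact ⟨fun h => ⟨UQ_i2_inl _ _, h⟩, fun h => h.2⟩
    · rw [Set.mem_setOf_eq, UQ_ex1]
      constructor
      · intro h; exact absurd h (UQ_i1_inr _ _)
      · rintro ⟨h0, y, hy, h⟩
        exfalso
        rw [c21] at h
        rw [vr1] at hy
        rw [UQ_i2_inr, cq2] at h0
        have := l1 y
        omega
  · refine UQ_ext (e := e) (fun x => ?_) (fun x => ?_)
    · rw [Set.mem_setOf_eq, UQ_ex2]
      constructor
      · intro h; exact absurd h (UQ_i2_inl _ _)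
      · rintro ⟨h0, y, hy, h⟩
        exfalso
        rw [c12] at h
        rw [vr2] at hy
        rw [UQ_i1_inl, cq1] at h0
        have := l2 y
        omega
    · rw [UQ_i2_inr, Set.mem_setOf_eq, UQ_ex2]
      simp only [c22]
      exact ⟨fun h => ⟨UQ_i1_inr _ _, h⟩, fun h => h.2⟩

end

theorem UQ (hLB : LB_stmt) : UQ_stmt := by
  intro k l k' l' N b₁ b₂ b₁' b₂' π e e' B1 B2 B1' B2' G G'
  obtain ⟨u1, u2, u3, u4, u5, u6, u7⟩ := UQ_rec hLB B1 B2 G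
  obtain ⟨u1', u2', u3', u4', u5', u6', u7'⟩ := UQ_rec hLB B1' B2' G'
  have key : ∀ j, UQ_i1 e (Cs b₁ j) = UQ_i1 e' (Cs b₁' j) ∧
      UQ_i1 e (Vs b₁ j) = UQ_i1 e' (Vs b₁' j) ∧ UQ_i2 e (Cs b₂ j) = UQ_i2 e' (Cs b₂' j) ∧
      UQ_i2 e (Vs b₂ j) = UQ_i2 e' (Vs b₂' j) := by
    intro j
    induction j with
    | zero =>
      have h1 : UQ_i1 e (Cs b₁ 0) = UQ_i1 e' (Cs b₁' 0) := by rw [u1, u1']
      have h2 : UQ_i1 e (Vs b₁ 0) = UQ_i1 e' (Vs b₁' 0) := by rw [u3, u3', h1]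
      have h3 : UQ_i2 e (Cs b₂ 0) = UQ_i2 e' (Cs b₂' 0) := by rw [u2, u2', h1]
      have h4 : UQ_i2 e (Vs b₂ 0) = UQ_i2 e' (Vs b₂' 0) := by rw [u5, u5', h2, h3]
      exact ⟨h1, h2, h3, h4⟩
    | succ j ih =>
      obtain ⟨i1, i2, i3, i4⟩ := ih
      have h1 : UQ_i1 e (Cs b₁ (j + 1)) = UQ_i1 e' (Cs b₁' (j + 1)) := by rw [u6, u6', i3, i2]
      have h2 : UQ_i1 e (Vs b₁ (j + 1)) = UQ_i1 e' (Vs b₁' (j + 1)) := by rw [u4, u4', i4, h1]
      have h3 : UQ_i2 e (Cs b₂ (j + 1)) = UQ_i2 e' (Cs b₂' (j + 1)) := by rw [u7, u7', h1, i4]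
      have h4 : UQ_i2 e (Vs b₂ (j + 1)) = UQ_i2 e' (Vs b₂' (j + 1)) := by rw [u5, u5', h2, h3]
      exact ⟨h1, h2, h3, h4⟩
  have r1 : Set.range (fun x => e (Sum.inl x)) = ⋃ j, UQ_i1 e (Cs b₁ j) := by
    ext x
    rw [Set.mem_iUnion, Set.mem_range]
    constructor
    · rintro ⟨y, rfl⟩
      exact ⟨Q b₁ y, (UQ_i1_inl _ _).mpr (((hLB k b₁ B1).1 y _).mpr le_rfl)⟩
    · rintro ⟨j, y, -, h⟩
      exact ⟨y, h⟩
  have r2 : Set.range (fun x => e' (Sum.inl x)) = ⋃ j, UQ_i1 e' (Cs b₁' j) := by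
    ext x
    rw [Set.mem_iUnion, Set.mem_range]
    constructor
    · rintro ⟨y, rfl⟩
      exact ⟨Q b₁' y, (UQ_i1_inl _ _).mpr (((hLB k' b₁' B1').1 y _).mpr le_rfl)⟩
    · rintro ⟨j, y, -, h⟩
      exact ⟨y, h⟩
  rw [r1, r2]
  exact Set.iUnion_congr fun j => (key j).1

end Pool.Agent.AV
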