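import Mathlib
import Pool.Agent.helper55.AV.LB
import Pool.Agent.helper55.AV.LC
import Pool.Agent.helper55.AV.GE
import Pool.Agent.helper55.AV.GA
import Pool.Agent.helper55.AV.GB
import Pool.Agent.helper55.AV.UQ
import Pool.Agent.helper54.AV.PT
import Pool.Agent.helper55.AV.CT
import Pool.Agent.helper20.AV.TI
import Pool.Agent.helper55.AV.G1
import Pool.Agent.helper55.AV.TC
import Pool.Agent.helper64.AV.TB
import Pool.Agent.helper55.AV.SE
import Pool.Agent.helper55.AV.GR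
import Pool.Agent.helper55.AV.AN
import Pool.Agent.helper55.AV.CF
import Pool.Agent.helper55.AV.NR

/-!
# Assembly of project `av`
-/

namespace Pool.Agent.AV

open Finset Filter Topology

theorem mainIneq : TC_stmt := by
  have hLB := LB
  have hLC := LC hLB
  have hCT := CT (GE hLB) (GA hLB hLC) (GB hLB) (UQ hLB) PT
  exact TC hCT TI G1

theorem main : ∃ γ : ℝ, 1 < γ ∧
    Tendsto (fun n : ℕ => (s n : ℝ) ^ ((1 : ℝ) / n)) atTop (𝓝 γ) ∧
    Summable (fun n => (s n : ℝ) / γ ^ n) ∧ ∑' n, (s n : ℝ) / γ ^ n ≤ γ ∧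
    ¬ ∃ (d n₀ : ℕ) (c : Fin (d + 1) → ℂ), c ≠ 0 ∧
      ∀ n, n₀ ≤ n → ∑ i : Fin (d + 1), c i * (s (n + (i : ℕ)) : ℂ) = 0 := by
  obtain ⟨-, hmul, ⟨c, hc, hle⟩, hone, hs2⟩ := SE
  obtain ⟨γ, hγ, hlim, hbound⟩ := GR s c hmul hc hle hone
  obtain ⟨g0, g1, s0, hgs⟩ := G1
  obtain ⟨hsum, hts⟩ := AN s g γ hγ hbound g0 g1 s0 hgs mainIneq TB
  refine ⟨γ, ?_, hlim, hsum, hts, NR CF s γ hγ hlim hsum.tendsto_atTop_zero⟩
  have h2 := hbound 2
  rw [hs2] at h2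
  push_cast at h2
  nlinarith

end Pool.Agent.AV
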