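import Mathlib
import Pool.Agent.helper55.AV.Spec

/-!
Module `GR`: growth rate of a supermultiplicative sequence.
-/

namespace Pool.Agent.AV

open Filter Topology

theorem GR : GR_stmt := by
  intro a c hmul hc hle hone
  have hpos : ∀ n, (0 : ℝ) < a n := fun n => by
    have := hone n
    exact_mod_cast this
  have hc0 : (0 : ℝ) < c := by exact_mod_cast hc
  have hsub : Subadditive (fun n => - Real.log (a n)) := by
    intro m n
    have h1 : ((a m : ℝ) * a n) ≤ a (m + n) := by exact_mod_cast hmul m n
    have h2 := Real.log_le_log (mul_pos (hpos m) (hpos n)) h1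
    rw [Real.log_mul (hpos m).ne' (hpos n).ne'] at h2
    simp only
    linarith
  have hbdd : BddBelow (Set.range fun n : ℕ => (- Real.log (a n)) / n) := by
    refine ⟨- Real.log c, ?_⟩
    rintro _ ⟨n, rfl⟩
    simp only
    rcases Nat.eq_zero_or_pos n with hn | hn
    · subst hn
      have : 0 ≤ Real.log c := Real.log_nonneg (by exact_mod_cast hc)
      simp
      exact this
    · have hn' : (0 : ℝ) < n := by exact_mod_cast hn
      rw [le_div_iff₀ hn']
      have h1 : (a n : ℝ) ≤ (c : ℝ) ^ n := by exact_mod_cast hle n
      have h2 := Real.log_le_log (hpos n) h1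
      rw [Real.log_pow] at h2
      nlinarith
  have hlim := hsub.tendsto_lim hbdd
  refine ⟨Real.exp (- hsub.lim), ?_, ?_, fun n => ?_⟩
  · rw [← Real.exp_zero]
    refine Real.exp_le_exp.mpr ?_
    have h1 := hsub.lim_le_div hbdd (n := 1) one_ne_zero
    have h2 : 0 ≤ Real.log (a 1) := Real.log_nonneg (by exact_mod_cast hone 1)
    simp only [Nat.cast_one, div_one] at h1
    linarith
  · have h1 : Tendsto (fun n : ℕ => Real.exp (-((- Real.log (a n)) / n))) atTop
        (𝓝 (Real.exp (- hsub.lim))) := (Real.continuous_exp.tendsto _).comp hlim.neg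
    refine h1.congr fun n => ?_
    rw [Real.rpow_def_of_pos (hpos n)]
    congr 1
    ring
  · rcases Nat.eq_zero_or_pos n with hn | hn
    · subst hn
      have := hle 0
      simpa using this
    · have hn' : (0 : ℝ) < n := by exact_mod_cast hn
      have h1 := hsub.lim_le_div hbdd (n := n) (by omega)
      rw [← Real.exp_log (hpos n), ← Real.exp_nat_mul]
      refine Real.exp_le_exp.mpr ?_
      rw [le_div_iff₀ hn'] at h1
      nlinarith

end Pool.Agent.AV
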